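import Pool.Agent.Helper993.TwoN.Defs

set_option autoImplicit false

namespace Pool.Agent.Helper993.TwoN

open Polynomial

/-- Characteristic polynomials of the leading blocks of a lower Hessenberg matrix with
superdiagonal entries 1. -/
noncomputable def hess (M : ℕ → ℕ → ℝ) : ℕ → ℝ[X]
  | 0 => 1
  | m + 1 => (X - C (M m m)) * hess M m - ∑ c : Fin m, C (M m c) * hess M c

def Detect (Data : List (ℕ × List ℕ × Bool)) : Prop :=
  ∀ ρ, Box ρ → ∀ j0 ∈ Finset.Icc 1 69, |ρ j0| = bd j0 → ∃ t ∈ Data,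
    (0 < eta t.2.1.toFinset t.2.2 ∧ eta t.2.1.toFinset t.2.2 + L t.2.1.toFinset t.2.2 ρ < -(1 / 10 ^ 7)) ∨
    (eta t.2.1.toFinset t.2.2 < 0 ∧ 1 / 10 ^ 7 < eta t.2.1.toFinset t.2.2 + L t.2.1.toFinset t.2.2 ρ)

end Pool.Agent.Helper993.TwoN
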