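import Mathlib
import Pool.Agent.Helper993.TwoN.Defs
import Pool.Agent.Helper993.TwoN.Defs2

set_option autoImplicit false
/-! Irreducible 2n conjecture: definitions for the counterexample of order 69. -/

namespace Pool.Agent.Helper993.TwoN.A1b

open Polynomial
open Pool.Agent.Helper993.TwoN

/-- The entries of the matrix realising `p`. -/
noncomputable def Mt (F1 F2 : ℝ[X]) (i j : ℕ) : ℝ :=
  if j = i + 1 then 1
  else if i = 0 ∧ j = 0 then -F1.coeff 35
  else if i = 34 ∧ j ≤ 32 then -hs F1 36 (35 - j)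
  else if i = 35 ∧ j = 0 then -F1.coeff 0
  else if i = 36 ∧ j = 36 then -F2.coeff 33
  else if i = 68 ∧ 36 ≤ j ∧ j ≤ 67 then -hs F2 34 (69 - j)
  else if i = 68 ∧ j = 35 then -F2.coeff 0
  else 0

theorem hess_succ_10300 (M : ℕ → ℕ → ℝ) (m : ℕ) : hess M (m + 1) =
    (X - C (M m m)) * hess M m - ∑ c ∈ Finset.range m, C (M m c) * hess M c := by
  rw [hess, Finset.sum_range]

theorem shift_10300 (M : ℕ → ℕ → ℝ) (P : ℕ → ℝ[X])
    (Ps : ∀ m, P (m + 1) = (X - C (M m m)) * P m - ∑ c ∈ Finset.range m, C (M m c) * P c) (m0 : ℕ) (k : ℕ)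
    (hz : ∀ m, m0 ≤ m → m < m0 + k → ∀ c, c ≤ m → M m c = 0) :
    P (m0 + k) = X ^ k * P m0 := by
  induction k with
  | zero => simp
  | succ k ih =>
    have h1 := ih fun m hm hm' c hc => hz m hm (by omega) c hc
    rw [← add_assoc, Ps, h1, hz (m0 + k) (by omega) (by omega) _ le_rfl,
      Finset.sum_eq_zero, map_zero, sub_zero, sub_zero, pow_succ]
    · ring
    · intro c hc
      rw [hz (m0 + k) (by omega) (by omega) c (Finset.mem_range.1 hc).le, map_zero, zero_mul]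

/-- truncated polynomial -/
noncomputable def TT_10300 (F : ℝ[X]) (D m : ℕ) : ℝ[X] :=
  ∑ i ∈ Finset.range (m + 1), C (F.coeff (D - i)) * X ^ (m - i)

theorem TT_self_10300 (F : ℝ[X]) (D : ℕ) (hD : F.natDegree = D) : TT_10300 F D D = F := by
  unfold TT_10300
  have h1 := Finset.sum_range_reflect (fun i => C (F.coeff i) * X ^ i) (D + 1)
  simp only [Nat.add_sub_cancel] at h1
  rw [h1]
  conv_rhs => rw [F.as_sum_range_C_mul_X_pow, hD]

theorem TT_succ_10300 (F : ℝ[X]) (D m : ℕ) :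
    TT_10300 F D (m + 1) = X * TT_10300 F D m + C (F.coeff (D - (m + 1))) := by
  unfold TT_10300
  rw [Finset.sum_range_succ, Nat.sub_self, pow_zero, mul_one, Finset.mul_sum]
  congr 1
  refine Finset.sum_congr rfl fun i hi => ?_
  have : m + 1 - i = (m - i) + 1 := by
    have := Finset.mem_range.1 hi
    omega
  rw [this, pow_succ]
  ring

theorem horner_10300 (F : ℝ[X]) (D : ℕ) (h1 : F.coeff D = 1) (m : ℕ) :
    TT_10300 F D m = (∑ l ∈ Finset.range m, C (hs F D l) * (X - C (-F.coeff (D - 1))) *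
      X ^ (m - 1 - l)) + C (hs F D m) := by
  induction m with
  | zero => simp [TT_10300, hs, h1]
  | succ m ih =>
    rw [TT_succ_10300, ih, Finset.sum_range_succ, mul_add, Finset.mul_sum]
    have e1 : ∑ l ∈ Finset.range m, X * (C (hs F D l) * (X - C (-F.coeff (D - 1))) *
        X ^ (m - 1 - l)) = ∑ l ∈ Finset.range m, C (hs F D l) * (X - C (-F.coeff (D - 1))) *
        X ^ (m + 1 - 1 - l) := by
      refine Finset.sum_congr rfl fun l hl => ?_
      have : m + 1 - 1 - l = (m - 1 - l) + 1 := by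
        have := Finset.mem_range.1 hl
        omega
      rw [this, pow_succ]
      ring
    have e2 : m + 1 - 1 - m = 0 := by omega
    have e3 : hs F D (m + 1) = -F.coeff (D - 1) * hs F D m + F.coeff (D - (m + 1)) := rfl
    rw [e1, e2, e3, pow_zero, map_add, map_mul]
    ring

theorem horner'_10300 (F : ℝ[X]) (D : ℕ) (h1 : F.coeff D = 1) (m : ℕ) :
    TT_10300 F D (m + 1) = (∑ c ∈ Finset.range (m + 1), C (hs F D (m - c)) *
      (X ^ c * (X - C (-F.coeff (D - 1))))) + C (hs F D (m + 1)) := by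
  rw [horner_10300 F D h1]
  congr 1
  have h2 := Finset.sum_range_reflect (fun l => C (hs F D l) * (X - C (-F.coeff (D - 1))) *
      X ^ (m + 1 - 1 - l)) (m + 1)
  rw [← h2]
  refine Finset.sum_congr rfl fun c hc => ?_
  have hc' := Finset.mem_range.1 hc
  have e1 : m + 1 - 1 - c = m - c := by omega
  have e2 : m + 1 - 1 - (m - c) = c := by omega
  rw [e1, e2]
  ring

theorem Mt_zero_10300 (F1 F2 : ℝ[X]) (i j : ℕ) (h1 : j ≠ i + 1) (h2 : ¬(i = 0 ∧ j = 0))
    (h3 : ¬(i = 34 ∧ j ≤ 32)) (h4 : ¬(i = 35 ∧ j = 0)) (h5 : ¬(i = 36 ∧ j = 36))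
    (h6 : ¬(i = 68 ∧ 36 ≤ j ∧ j ≤ 67)) (h7 : ¬(i = 68 ∧ j = 35)) : Mt F1 F2 i j = 0 := by
  unfold Mt
  rw [if_neg h1, if_neg h2, if_neg h3, if_neg h4, if_neg h5, if_neg h6, if_neg h7]

theorem Mt_34_10300 (F1 F2 : ℝ[X]) (j : ℕ) (hj : j ≤ 32) :
    Mt F1 F2 34 j = -hs F1 36 (35 - j) := by
  unfold Mt
  rw [if_neg (by omega), if_neg (by omega), if_pos (by omega)]

theorem Mt_68_10300 (F1 F2 : ℝ[X]) (j : ℕ) (hj : 36 ≤ j) (hj' : j ≤ 67) :
    Mt F1 F2 68 j = -hs F2 34 (69 - j) := by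
  unfold Mt
  rw [if_neg (by omega), if_neg (by omega), if_neg (by omega), if_neg (by omega),
    if_neg (by omega), if_pos (by omega)]

theorem P_low_10300 (F1 F2 : ℝ[X]) (P : ℕ → ℝ[X]) (P0 : P 0 = 1)
    (Ps : ∀ m, P (m + 1) = (X - C (Mt F1 F2 m m)) * P m -
      ∑ c ∈ Finset.range m, C (Mt F1 F2 m c) * P c) (c : ℕ) (hc : c ≤ 33) :
    P (c + 1) = X ^ c * (X - C (-F1.coeff 35)) := by
  have h1 : P 1 = X - C (-F1.coeff 35) := by
    rw [Ps, Finset.sum_range_zero, sub_zero]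
    have : Mt F1 F2 0 0 = -F1.coeff 35 := by simp [Mt]
    rw [this, P0, mul_one]
  rw [add_comm c 1, shift_10300 (Mt F1 F2) P Ps 1 c, h1]
  intro m hm hm' j hj
  exact Mt_zero_10300 F1 F2 m j (by omega) (by omega) (by omega) (by omega) (by omega) (by omega)
    (by omega)

theorem P_35_10300 (F1 F2 : ℝ[X]) (P : ℕ → ℝ[X]) (P0 : P 0 = 1)
    (Ps : ∀ m, P (m + 1) = (X - C (Mt F1 F2 m m)) * P m -
      ∑ c ∈ Finset.range m, C (Mt F1 F2 m c) * P c) (hc1 : F1.coeff 36 = 1) (hc2 : F1.coeff 34 = 0) :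
    P 35 = TT_10300 F1 36 35 := by
  have hh1 : hs F1 36 1 = 0 := by
    show -F1.coeff (36 - 1) * 1 + F1.coeff (36 - (0 + 1)) = 0
    norm_num
  have hh2 : hs F1 36 2 = 0 := by
    show -F1.coeff (36 - 1) * hs F1 36 1 + F1.coeff (36 - (1 + 1)) = 0
    rw [hh1]
    norm_num
    exact hc2
  rw [show (35:ℕ) = 34 + 1 from rfl, Ps, horner'_10300 F1 36 hc1 34]
  have e1 : Mt F1 F2 34 34 = 0 := Mt_zero_10300 F1 F2 34 34 (by omega) (by omega) (by omega)
    (by omega) (by omega) (by omega) (by omega)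
  have e2 : P 34 = X ^ 33 * (X - C (-F1.coeff 35)) :=
    P_low_10300 F1 F2 P P0 Ps 33 le_rfl
  have e3 : ∑ c ∈ Finset.range 34, C (Mt F1 F2 34 c) * P c =
      -(∑ c ∈ Finset.range 33, C (hs F1 36 (34 - c)) * (X ^ c * (X - C (-F1.coeff (36 - 1)))))
      - C (hs F1 36 (34 + 1)) := by
    rw [Finset.sum_range_succ', Mt_34_10300 F1 F2 0 (by omega)]
    have e4 : ∑ c ∈ Finset.range 33, C (Mt F1 F2 34 (c + 1)) * P (c + 1) =
        -(∑ c ∈ Finset.range 33, C (hs F1 36 (34 - c)) * (X ^ c * (X - C (-F1.coeff (36 - 1))))) := by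
      rw [← Finset.sum_neg_distrib]
      refine Finset.sum_congr rfl fun c hc => ?_
      have hc' := Finset.mem_range.1 hc
      rw [P_low_10300 F1 F2 P P0 Ps c (by omega)]
      have e5 : Mt F1 F2 34 (c + 1) = -hs F1 36 (34 - c) := by
        rcases Nat.lt_or_ge c 32 with h | h
        · rw [Mt_34_10300 F1 F2 (c + 1) (by omega)]
          congr 2
          omega
        · have hc32 : c = 32 := by omega
          subst hc32
          rw [Mt_zero_10300 F1 F2 34 33 (by omega) (by omega) (by omega) (by omega) (by omega)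
            (by omega) (by omega)]
          show (0:ℝ) = -hs F1 36 2
          rw [hh2, neg_zero]
      rw [e5, map_neg]
      ring
    have e8 : C (-hs F1 36 (35 - 0)) = -C (hs F1 36 (34 + 1)) := map_neg _ _
    rw [e4, P0, e8]
    ring
  have e6 : hs F1 36 (34 - 33) = 0 := hh1
  have e7 : hs F1 36 (34 - 34) = 1 := rfl
  rw [e1, e2, e3, Finset.sum_range_succ _ 34, Finset.sum_range_succ _ 33, e6, e7, map_zero, map_one]
  have e9 : (X : ℝ[X]) ^ 34 = X * X ^ 33 := by ring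
  have e10 : (36:ℕ) - 1 = 35 := rfl
  rw [e9, e10]
  generalize (∑ c ∈ Finset.range 33, C (hs F1 36 (34 - c)) * (X ^ c * (X - C (-F1.coeff 35)))) = Sg
  ring

theorem P_36_10300 (F1 F2 : ℝ[X]) (P : ℕ → ℝ[X]) (P0 : P 0 = 1)
    (Ps : ∀ m, P (m + 1) = (X - C (Mt F1 F2 m m)) * P m -
      ∑ c ∈ Finset.range m, C (Mt F1 F2 m c) * P c) (hc1 : F1.coeff 36 = 1) (hc2 : F1.coeff 34 = 0)
    (hd : F1.natDegree = 36) : P 36 = F1 := by
  have h1 := TT_succ_10300 F1 36 35
  have h2 := TT_self_10300 F1 36 hd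
  rw [show (36:ℕ) = 35 + 1 from rfl, Ps, P_35_10300 F1 F2 P P0 Ps hc1 hc2,
    Finset.sum_eq_single 0]
  · have e1 : Mt F1 F2 35 35 = 0 := Mt_zero_10300 F1 F2 35 35 (by omega) (by omega) (by omega)
      (by omega) (by omega) (by omega) (by omega)
    have e2 : Mt F1 F2 35 0 = -F1.coeff 0 := by simp [Mt]
    rw [e1, e2, P0, map_zero, map_neg]
    conv_rhs => rw [← h2]
    rw [h1]
    show (X - 0) * TT_10300 F1 36 35 - -C (F1.coeff 0) * 1 =
      X * TT_10300 F1 36 35 + C (F1.coeff 0)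
    ring
  · intro c hc hc0
    have hc' := Finset.mem_range.1 hc
    rw [Mt_zero_10300 F1 F2 35 c (by omega) (by omega) (by omega) (by omega) (by omega) (by omega)
      (by omega), map_zero, zero_mul]
  · intro h0
    exact absurd (Finset.mem_range.2 (by norm_num)) h0

theorem P_mid_10300 (F1 F2 : ℝ[X]) (P : ℕ → ℝ[X]) (P0 : P 0 = 1)
    (Ps : ∀ m, P (m + 1) = (X - C (Mt F1 F2 m m)) * P m -
      ∑ c ∈ Finset.range m, C (Mt F1 F2 m c) * P c) (hc1 : F1.coeff 36 = 1) (hc2 : F1.coeff 34 = 0)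
    (hd : F1.natDegree = 36) (c : ℕ) (hc : c ≤ 31) :
    P (37 + c) = X ^ c * (X - C (-F2.coeff 33)) * F1 := by
  have h1 : P 37 = (X - C (-F2.coeff 33)) * F1 := by
    rw [show (37:ℕ) = 36 + 1 from rfl, Ps, P_36_10300 F1 F2 P P0 Ps hc1 hc2 hd,
      Finset.sum_eq_zero, sub_zero]
    · have : Mt F1 F2 36 36 = -F2.coeff 33 := by simp [Mt]
      rw [this]
    · intro j hj
      have hj' := Finset.mem_range.1 hj
      rw [Mt_zero_10300 F1 F2 36 j (by omega) (by omega) (by omega) (by omega) (by omega)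
        (by omega) (by omega), map_zero, zero_mul]
  rw [shift_10300 (Mt F1 F2) P Ps 37 c, h1, mul_assoc]
  intro m hm hm' j hj
  exact Mt_zero_10300 F1 F2 m j (by omega) (by omega) (by omega) (by omega) (by omega) (by omega)
    (by omega)

theorem P_69_10300 (F1 F2 : ℝ[X]) (P : ℕ → ℝ[X]) (P0 : P 0 = 1)
    (Ps : ∀ m, P (m + 1) = (X - C (Mt F1 F2 m m)) * P m -
      ∑ c ∈ Finset.range m, C (Mt F1 F2 m c) * P c) (hc1 : F1.coeff 36 = 1) (hc2 : F1.coeff 34 = 0)
    (hd : F1.natDegree = 36) (hc3 : F2.coeff 34 = 1) :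
    P 69 = F1 * TT_10300 F2 34 33 + C (F2.coeff 0) * TT_10300 F1 36 35 := by
  have hh1 : hs F2 34 1 = 0 := by
    show -F2.coeff (34 - 1) * 1 + F2.coeff (34 - (0 + 1)) = 0
    norm_num
  rw [show (69:ℕ) = 68 + 1 from rfl, Ps, show (33:ℕ) = 32 + 1 from rfl,
    horner'_10300 F2 34 hc3 32]
  have e1 : Mt F1 F2 68 68 = 0 := Mt_zero_10300 F1 F2 68 68 (by omega) (by omega) (by omega)
    (by omega) (by omega) (by omega) (by omega)
  have e2 : P 68 = X ^ 31 * (X - C (-F2.coeff 33)) * F1 :=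
    P_mid_10300 F1 F2 P P0 Ps hc1 hc2 hd 31 le_rfl
  have e3 : ∑ c ∈ Finset.range 68, C (Mt F1 F2 68 c) * P c =
      -(C (F2.coeff 0) * TT_10300 F1 36 35) - C (hs F2 34 (32 + 1)) * F1 -
      (∑ c ∈ Finset.range 31, C (hs F2 34 (32 - c)) * (X ^ c * (X - C (-F2.coeff (34 - 1))))) * F1
      := by
    rw [show (68:ℕ) = 37 + 31 from rfl, Finset.sum_range_add, Finset.sum_range_succ,
      Finset.sum_range_succ]
    have f1 : ∑ c ∈ Finset.range 35, C (Mt F1 F2 (37 + 31) c) * P c = 0 := by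
      refine Finset.sum_eq_zero fun c hc => ?_
      have hc' := Finset.mem_range.1 hc
      rw [Mt_zero_10300 F1 F2 (37 + 31) c (by omega) (by omega) (by omega) (by omega) (by omega)
        (by omega) (by omega), map_zero, zero_mul]
    have f2 : Mt F1 F2 (37 + 31) 35 = -F2.coeff 0 := by simp [Mt]
    have f3 : Mt F1 F2 (37 + 31) 36 = -hs F2 34 (32 + 1) := Mt_68_10300 F1 F2 36 (by omega)
      (by omega)
    have f4 : ∑ c ∈ Finset.range 31, C (Mt F1 F2 (37 + 31) (37 + c)) *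
        P (37 + c) = -((∑ c ∈ Finset.range 31, C (hs F2 34 (32 - c)) *
          (X ^ c * (X - C (-F2.coeff (34 - 1))))) * F1) := by
      rw [Finset.sum_mul, ← Finset.sum_neg_distrib]
      refine Finset.sum_congr rfl fun c hc => ?_
      have hc' := Finset.mem_range.1 hc
      rw [P_mid_10300 F1 F2 P P0 Ps hc1 hc2 hd c (by omega)]
      have f5 : Mt F1 F2 (37 + 31) (37 + c) = -hs F2 34 (32 - c) := by
        have := Mt_68_10300 F1 F2 (37 + c) (by omega) (by omega)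
        rw [show 37 + 31 = 68 from rfl, this]
        congr 2
        omega
      rw [f5, map_neg]
      ring
    rw [f1, f2, f3, f4, P_35_10300 F1 F2 P P0 Ps hc1 hc2, P_36_10300 F1 F2 P P0 Ps hc1 hc2 hd, map_neg, map_neg]
    ring
  have e6 : hs F2 34 (32 - 31) = 0 := hh1
  have e7 : hs F2 34 (32 - 32) = 1 := rfl
  rw [e1, e2, e3, Finset.sum_range_succ _ 32, Finset.sum_range_succ _ 31, e6, e7, map_zero, map_one]
  have e9 : (X : ℝ[X]) ^ 32 = X * X ^ 31 := by ring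
  have e10 : (34:ℕ) - 1 = 33 := rfl
  rw [e9, e10]
  generalize (∑ c ∈ Finset.range 31, C (hs F2 34 (32 - c)) * (X ^ c * (X - C (-F2.coeff 33)))) = Sg
  ring

theorem pat_10300 (F1 F2 : ℝ[X]) (n1 : nice1 F1) (n2 : nice2 F2) (i j : ℕ) :
    Mt F1 F2 i j ≠ 0 ↔ pat i j = true := by
  obtain ⟨-, a1, a2, a3⟩ := n1
  obtain ⟨b1, b2, b3⟩ := n2
  by_cases h1 : j = i + 1
  · have : pat i j = true := by simp [pat, h1]
    simp only [this, iff_true]
    unfold Mt
    rw [if_pos h1]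
    exact one_ne_zero
  by_cases h2 : i = 0 ∧ j = 0
  · obtain ⟨rfl, rfl⟩ := h2
    simp [Mt, pat, a1]
  by_cases h3 : i = 34 ∧ j ≤ 32
  · obtain ⟨rfl, h3⟩ := h3
    have : pat 34 j = true := by simp [pat, h3]
    simp only [this, iff_true]
    rw [Mt_34_10300 F1 F2 j h3]
    exact neg_ne_zero.2 (a3 _ (by omega) (by omega))
  by_cases h4 : i = 35 ∧ j = 0
  · obtain ⟨rfl, rfl⟩ := h4
    simp [Mt, pat, a2]
  by_cases h5 : i = 36 ∧ j = 36
  · obtain ⟨rfl, rfl⟩ := h5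
    simp [Mt, pat, b1]
  by_cases h6 : i = 68 ∧ 36 ≤ j ∧ j ≤ 67
  · obtain ⟨rfl, h6, h6'⟩ := h6
    have : pat 68 j = true := by simp [pat, h6, h6']
    simp only [this, iff_true]
    rw [Mt_68_10300 F1 F2 j h6 h6']
    exact neg_ne_zero.2 (b3 _ (by omega) (by omega))
  by_cases h7 : i = 68 ∧ j = 35
  · obtain ⟨rfl, rfl⟩ := h7
    simp [Mt, pat, b2]
  rw [Mt_zero_10300 F1 F2 i j h1 h2 h3 h4 h5 h6 h7]
  have hp : pat i j = false := by
    unfold pat
    simp only [Bool.or_eq_false_iff, Bool.and_eq_false_iff, beq_eq_false_iff_ne,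
      decide_eq_false_iff_not, ne_eq]
    refine ⟨⟨⟨⟨⟨⟨h1, ?_⟩, ?_⟩, ?_⟩, ?_⟩, ?_⟩, ?_⟩ <;> omega
  rw [hp]
  simp

theorem realise
    (hess_charpoly : ∀ (n : ℕ) (M : ℕ → ℕ → ℝ), (∀ i, M i (i + 1) = 1) →
      (∀ i j, i + 1 < j → M i j = 0) →
      (Matrix.of (fun i j : Fin (n + 1) => M i j)).charpoly = hess M (n + 1))
    (p F1 F2 : ℝ[X]) (hp : p.Monic) (hpd : p.natDegree = 69)
    (h1 : F1.Monic) (d1 : F1.natDegree = 36) (h2 : F2.Monic) (d2 : F2.natDegree = 34) (K : ℝ)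
    (h : X * p + C K = F1 * F2) (n1 : nice1 F1) (n2 : nice2 F2) :
    ∃ A : Matrix (Fin 69) (Fin 69) ℝ, (∀ i j, A i j ≠ 0 ↔ (i, j) ∈ S) ∧ A.charpoly = p := by
  have hc1 : F1.coeff 36 = 1 := by rw [← d1]; exact h1
  have hc3 : F2.coeff 34 = 1 := by rw [← d2]; exact h2
  refine ⟨Matrix.of (fun i j : Fin 69 => Mt F1 F2 i j), ?_, ?_⟩
  · intro i j
    rw [Matrix.of_apply, pat_10300 F1 F2 n1 n2]
    simp [S]
  · have e1 := hess_charpoly 68 (Mt F1 F2) (fun i => by simp [Mt]) (fun i j hij =>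
      Mt_zero_10300 F1 F2 i j (by omega) (by omega) (by omega) (by omega) (by omega) (by omega)
        (by omega))
    refine Eq.trans e1 ?_
    show hess (Mt F1 F2) 69 = p
    have P0 : hess (Mt F1 F2) 0 = 1 := by rw [hess]
    have Ps := hess_succ_10300 (Mt F1 F2)
    rw [P_69_10300 F1 F2 (hess (Mt F1 F2)) P0 Ps hc1 n1.1 d1 hc3]
    have f1 : X * TT_10300 F1 36 35 + C (F1.coeff 0) = F1 := by
      have a1 := TT_succ_10300 F1 36 35
      have a2 := TT_self_10300 F1 36 d1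
      rw [← a1]
      exact a2
    have f2 : X * TT_10300 F2 34 33 + C (F2.coeff 0) = F2 := by
      have a1 := TT_succ_10300 F2 34 33
      have a2 := TT_self_10300 F2 34 d2
      rw [← a1]
      exact a2
    have hK : K = F1.coeff 0 * F2.coeff 0 := by
      have := congrArg (fun q : ℝ[X] => q.coeff 0) h
      simp only [coeff_add, mul_coeff_zero, coeff_X_zero, zero_mul, coeff_C_zero, zero_add] at this
      exact this
    have hX : X * (F1 * TT_10300 F2 34 33 + C (F2.coeff 0) * TT_10300 F1 36 35) = X * p := by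
      have g1 : X * p = F1 * F2 - C K := by rw [← h]; ring
      rw [g1, hK, map_mul]
      have g2 : X * TT_10300 F1 36 35 = F1 - C (F1.coeff 0) := by
        rw [eq_sub_iff_add_eq]; exact f1
      have g3 : X * TT_10300 F2 34 33 = F2 - C (F2.coeff 0) := by
        rw [eq_sub_iff_add_eq]; exact f2
      calc X * (F1 * TT_10300 F2 34 33 + C (F2.coeff 0) * TT_10300 F1 36 35) =
          F1 * (X * TT_10300 F2 34 33) + C (F2.coeff 0) * (X * TT_10300 F1 36 35) := by ring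
        _ = F1 * (F2 - C (F2.coeff 0)) + C (F2.coeff 0) * (F1 - C (F1.coeff 0)) := by rw [g2, g3]
        _ = _ := by ring
    exact mul_left_cancel₀ X_ne_zero hX

end Pool.Agent.Helper993.TwoN.A1b
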