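import Mathlib
import Pool.Agent.Helper993.TwoN.Defs

set_option autoImplicit false
/-! Irreducible 2n conjecture: definitions for the counterexample of order 69. -/

namespace Pool.Agent.Helper993.TwoN.A2

open Polynomial
open Pool.Agent.Helper993.TwoN

theorem S_card : S.card = 137 := by
  decide +kernel

theorem mem_S (a b : Fin 69) : (a, b) ∈ S ↔ pat a.val b.val = true := by
  simp [S]

theorem S_step (i : ℕ) (h : i + 1 < 69) :
    Relation.TransGen (fun a b : Fin 69 => (a, b) ∈ S) ⟨i, by omega⟩ ⟨i + 1, h⟩ := by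
  refine Relation.TransGen.single ?_
  rw [mem_S]
  simp [pat]

theorem S_up (i : ℕ) (k : ℕ) (h : i + (k + 1) < 69) :
    Relation.TransGen (fun a b : Fin 69 => (a, b) ∈ S) ⟨i, by omega⟩ ⟨i + (k + 1), h⟩ := by
  induction k with
  | zero => exact S_step i h
  | succ k ih => exact (ih (by omega)).trans (S_step (i + (k + 1)) h)

theorem S_up' (i j : ℕ) (hij : i < j) (h : j < 69) :
    Relation.TransGen (fun a b : Fin 69 => (a, b) ∈ S) ⟨i, by omega⟩ ⟨j, h⟩ := by
  obtain ⟨k, rfl⟩ := Nat.exists_eq_add_of_lt hij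
  exact S_up i k h

theorem S_wrap : Relation.TransGen (fun a b : Fin 69 => (a, b) ∈ S) ⟨68, by omega⟩ ⟨0, by omega⟩ := by
  refine Relation.TransGen.trans (b := ⟨35, by omega⟩) (Relation.TransGen.single ?_)
    (Relation.TransGen.single ?_)
  · rw [mem_S]; simp [pat]
  · rw [mem_S]; simp [pat]

theorem S_conn (i j : Fin 69) : Relation.TransGen (fun a b : Fin 69 => (a, b) ∈ S) i j := by
  obtain ⟨i, hi⟩ := i
  obtain ⟨j, hj⟩ := j
  have h0j : Relation.ReflTransGen (fun a b : Fin 69 => (a, b) ∈ S) ⟨0, by omega⟩ ⟨j, hj⟩ := by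
    rcases Nat.eq_zero_or_pos j with h | h
    · subst h; exact Relation.ReflTransGen.refl
    · exact (S_up' 0 j h hj).to_reflTransGen
  have hi68 : Relation.ReflTransGen (fun a b : Fin 69 => (a, b) ∈ S) ⟨i, hi⟩ ⟨68, by omega⟩ := by
    rcases Nat.lt_or_ge i 68 with h | h
    · exact (S_up' i 68 h (by omega)).to_reflTransGen
    · have : i = 68 := by omega
      subst this; exact Relation.ReflTransGen.refl
  exact Relation.TransGen.trans_left (Relation.TransGen.trans_right hi68 S_wrap) h0j

end Pool.Agent.Helper993.TwoN.A2
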