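import Mathlib
import Pool.Agent.Helper993.TwoN.Defs

set_option autoImplicit false
/-! Irreducible 2n conjecture: definitions for the counterexample of order 69. -/

namespace Pool.Agent.Helper993.TwoN.B4

open Polynomial
open Pool.Agent.Helper993.TwoN

theorem w_norm (a : ℕ) : ‖w a‖ = 1 := by
  unfold w
  exact Complex.norm_exp_ofReal_mul_I _

theorem w_conj_mul (a : ℕ) : (starRingEnd ℂ) (w a) * w a = 1 := by
  have h := w_norm a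
  rw [mul_comm, Complex.mul_conj, Complex.normSq_eq_norm_sq, h]
  simp

theorem sgn_sq (e : ℕ) : ((-1 : ℂ)) ^ e * (-1) ^ e = 1 := by
  rw [← mul_pow]; simp

theorem conj_pow_eq (e a j : ℕ) (h70 : (w a) ^ 70 = (-1) ^ e) (k l : ℕ) (hkl : k + l = 70)  :
    (-1 : ℂ) ^ e * (w a) ^ k = ((starRingEnd ℂ) (w a)) ^ l := by
  have h1 : ((starRingEnd ℂ) (w a)) ^ l * (w a) ^ l = 1 := by
    rw [← mul_pow, w_conj_mul, one_pow]
  have h2 : (w a) ^ k * (w a) ^ l = (-1) ^ e := by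
    rw [← pow_add, hkl, h70]
  calc (-1 : ℂ) ^ e * (w a) ^ k = (-1 : ℂ) ^ e * (w a) ^ k * (((starRingEnd ℂ) (w a)) ^ l * (w a) ^ l) := by
        rw [h1, mul_one]
    _ = (-1 : ℂ) ^ e * ((w a) ^ k * (w a) ^ l) * ((starRingEnd ℂ) (w a)) ^ l := by ring
    _ = ((starRingEnd ℂ) (w a)) ^ l := by rw [h2, sgn_sq, one_mul]

theorem first_var
    (power_sum : ∀ (e : ℕ) (U : Finset ℕ) (pm : Bool), U ⊆ UP e → (pm = true → e = 0) →
      ∀ (m : ℕ), ∑ a ∈ full U pm, (w a) ^ m = ((sg U pm m : ℝ) : ℂ))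
    (e : ℕ) (U : Finset ℕ) (pm : Bool) (hV : Valid e U pm)
    (h70 : ∀ a ∈ full U pm, (w a) ^ 70 = (-1) ^ e)
    (ρ : ℕ → ℝ) :
    ((sg U pm 1 : ℝ) : ℂ) * ∑ a ∈ full U pm, xi1 e ρ (w a) - ∑ a ∈ full U pm, w a * xi1 e ρ (w a)
      = ((L U pm ρ : ℝ) : ℂ) := by
  have hps := power_sum e U pm hV.hU hV.hp
  have hcs : ∀ m, ∑ a ∈ full U pm, ((starRingEnd ℂ) (w a)) ^ m = ((sg U pm m : ℝ) : ℂ) := by
    intro m
    have h := congrArg (starRingEnd ℂ) (hps m)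
    rw [map_sum, Complex.conj_ofReal] at h
    simpa only [map_pow] using h
  have hx : ∀ a, xi1 e ρ (w a) = ∑ j ∈ Finset.Icc 1 69, (-(1/70) * (ρ j : ℂ)) * ((-1) ^ e * (w a) ^ (71 - j)) := by
    intro a
    unfold xi1 r
    rw [Finset.mul_sum, Finset.sum_div]
    refine Finset.sum_congr rfl fun j hj => ?_
    have hj' := Finset.mem_Icc.1 hj
    have : (w a) ^ (71 - j) = w a * (w a) ^ (70 - j) := by
      rw [← pow_succ']; congr 1; omega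
    rw [this]; ring
  have e1 : ∑ a ∈ full U pm, xi1 e ρ (w a) = ∑ j ∈ Finset.Icc 1 69, (-(1/70) * (ρ j : ℂ)) * ((sg U pm (j - 1) : ℝ) : ℂ) := by
    rw [Finset.sum_congr rfl (fun a _ => hx a), Finset.sum_comm]
    refine Finset.sum_congr rfl fun j hj => ?_
    have hj' := Finset.mem_Icc.1 hj
    rw [← Finset.mul_sum, ← hcs (j - 1)]
    congr 1
    refine Finset.sum_congr rfl fun a ha => ?_
    exact conj_pow_eq e a j (h70 a ha) _ _ (by omega)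
  have e2 : ∑ a ∈ full U pm, w a * xi1 e ρ (w a) = ∑ j ∈ Finset.Icc 1 69, (-(1/70) * (ρ j : ℂ)) *
      ((sg U pm (if j = 1 then 1 else j - 2) : ℝ) : ℂ) := by
    have hx' : ∀ a, w a * xi1 e ρ (w a) = ∑ j ∈ Finset.Icc 1 69, (-(1/70) * (ρ j : ℂ)) * ((-1) ^ e * (w a) ^ (72 - j)) := by
      intro a
      rw [hx a, Finset.mul_sum]
      refine Finset.sum_congr rfl fun j hj => ?_
      have hj' := Finset.mem_Icc.1 hj
      have : (w a) ^ (72 - j) = w a * (w a) ^ (71 - j) := by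
        rw [← pow_succ']; congr 1; omega
      rw [this]; ring
    rw [Finset.sum_congr rfl (fun a _ => hx' a), Finset.sum_comm]
    refine Finset.sum_congr rfl fun j hj => ?_
    have hj' := Finset.mem_Icc.1 hj
    rw [← Finset.mul_sum]
    congr 1
    by_cases h1 : j = 1
    · subst h1
      rw [if_pos rfl, ← hps 1]
      refine Finset.sum_congr rfl fun a ha => ?_
      show (-1) ^ e * (w a) ^ 71 = (w a) ^ 1
      rw [show (71 : ℕ) = 70 + 1 from rfl, pow_add, h70 a ha, ← mul_assoc, sgn_sq, one_mul]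
    · rw [if_neg h1, ← hcs (j - 2)]
      refine Finset.sum_congr rfl fun a ha => ?_
      exact conj_pow_eq e a j (h70 a ha) _ _ (by omega)
  rw [e1, e2, Finset.mul_sum, ← Finset.sum_sub_distrib]
  unfold L Lc
  push_cast
  refine Finset.sum_congr rfl fun j hj => ?_
  ring

theorem e2_est
    (full_union : ∀ (e : ℕ) (U : Finset ℕ) (pm : Bool), Valid e U pm →
      full U pm ⊆ PAR e ∧ full (comp e U) (cpm e pm) = PAR e \ full U pm ∧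
      (full U pm).card = 36 ∧ (full (comp e U) (cpm e pm)).card = 34)
    (power_sum : ∀ (e : ℕ) (U : Finset ℕ) (pm : Bool), U ⊆ UP e → (pm = true → e = 0) →
      ∀ (m : ℕ), ∑ a ∈ full U pm, (w a) ^ m = ((sg U pm m : ℝ) : ℂ))
    (w_pow : ∀ (e a : ℕ), a ∈ PAR e → (w a) ^ 70 = (-1) ^ e)
    (e : ℕ) (U : Finset ℕ) (pm : Bool) (hV : Valid e U pm) (hs : |sg U pm 1| ≤ 2)
    (ρ : ℕ → ℝ) (hρ : Box ρ) (z : ℕ → ℂ)
    (h1 : ∑ a ∈ PAR e, ‖z a - w a‖ ^ 2 ≤ 125 / 10 ^ 12)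
    (h2 : ∑ a ∈ PAR e, ‖z a - w a - xi1 e ρ (w a)‖ ≤ 13 / 10 ^ 9) :
    ‖((∑ a ∈ full U pm, z a) ^ 2 - ∑ a ∈ full U pm, (z a) ^ 2) / 2
      - ((eta U pm + L U pm ρ : ℝ) : ℂ)‖ ≤ 1 / 10 ^ 7 := by
  obtain ⟨hsub, -, hcard, -⟩ := full_union e U pm hV
  have hps := power_sum e U pm hV.hU hV.hp
  have hfv := first_var power_sum e U pm hV (fun a ha => w_pow e a (hsub ha)) ρ
  set A := full U pm with hA
  have hs1 : ∑ a ∈ A, w a = ((sg U pm 1 : ℝ) : ℂ) := by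
    simpa using hps 1
  have hs2 : ∑ a ∈ A, (w a) ^ 2 = ((sg U pm 2 : ℝ) : ℂ) := hps 2
  have hz : ∑ a ∈ A, z a = ((sg U pm 1 : ℝ) : ℂ) + ∑ a ∈ A, (z a - w a) := by
    rw [Finset.sum_sub_distrib, hs1]; ring
  have hz2 : ∑ a ∈ A, (z a) ^ 2 = ((sg U pm 2 : ℝ) : ℂ) + 2 * ∑ a ∈ A, w a * (z a - w a)
      + ∑ a ∈ A, (z a - w a) ^ 2 := by
    rw [← hs2, Finset.mul_sum, ← Finset.sum_add_distrib, ← Finset.sum_add_distrib]
    refine Finset.sum_congr rfl fun a _ => ?_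
    ring
  have hd1 : ∑ a ∈ A, (z a - w a) = ∑ a ∈ A, xi1 e ρ (w a) + ∑ a ∈ A, (z a - w a - xi1 e ρ (w a)) := by
    rw [← Finset.sum_add_distrib]
    refine Finset.sum_congr rfl fun a _ => ?_
    ring
  have hd2 : ∑ a ∈ A, w a * (z a - w a) = ∑ a ∈ A, w a * xi1 e ρ (w a)
      + ∑ a ∈ A, w a * (z a - w a - xi1 e ρ (w a)) := by
    rw [← Finset.sum_add_distrib]
    refine Finset.sum_congr rfl fun a _ => ?_
    ring
  have key : ((∑ a ∈ A, z a) ^ 2 - ∑ a ∈ A, (z a) ^ 2) / 2 - ((eta U pm + L U pm ρ : ℝ) : ℂ)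
      = (((sg U pm 1 : ℝ) : ℂ) * ∑ a ∈ A, (z a - w a - xi1 e ρ (w a))
        - ∑ a ∈ A, w a * (z a - w a - xi1 e ρ (w a)))
        + ((∑ a ∈ A, (z a - w a)) ^ 2 - ∑ a ∈ A, (z a - w a) ^ 2) / 2 := by
    have heta : ((eta U pm : ℝ) : ℂ) = (((sg U pm 1 : ℝ) : ℂ) ^ 2 - ((sg U pm 2 : ℝ) : ℂ)) / 2 := by
      unfold eta; push_cast; ring
    have hL : ((eta U pm + L U pm ρ : ℝ) : ℂ) = ((eta U pm : ℝ) : ℂ) + ((L U pm ρ : ℝ) : ℂ) := by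
      push_cast; ring
    rw [hL, heta, ← hfv, hz, hz2]
    have hd2' := hd2
    generalize ∑ a ∈ A, w a * (z a - w a) = X1 at hd2' ⊢
    have hd1' := hd1
    generalize (∑ a ∈ A, (z a - w a)) = X2 at hd1' ⊢
    rw [hd2']
    have : ∑ a ∈ A, xi1 e ρ (w a) = X2 - ∑ a ∈ A, (z a - w a - xi1 e ρ (w a)) := by
      rw [hd1']; ring
    rw [this]
    ring
  rw [key]
  have hDle : ∑ a ∈ A, ‖z a - w a - xi1 e ρ (w a)‖ ≤ 13 / 10 ^ 9 :=
    (Finset.sum_le_sum_of_subset_of_nonneg hsub (fun _ _ _ => norm_nonneg _)).trans h2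
  have hQle : ∑ a ∈ A, ‖z a - w a‖ ^ 2 ≤ 125 / 10 ^ 12 :=
    (Finset.sum_le_sum_of_subset_of_nonneg hsub (fun _ _ _ => by positivity)).trans h1
  have b1 : ‖((sg U pm 1 : ℝ) : ℂ) * ∑ a ∈ A, (z a - w a - xi1 e ρ (w a))‖ ≤ 2 * (13 / 10 ^ 9) := by
    rw [norm_mul]
    have : ‖((sg U pm 1 : ℝ) : ℂ)‖ ≤ 2 := by
      rw [Complex.norm_real]; exact hs
    exact mul_le_mul this ((norm_sum_le _ _).trans hDle) (norm_nonneg _) (by norm_num)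
  have b2 : ‖∑ a ∈ A, w a * (z a - w a - xi1 e ρ (w a))‖ ≤ 13 / 10 ^ 9 := by
    refine (norm_sum_le _ _).trans (le_trans (le_of_eq ?_) hDle)
    refine Finset.sum_congr rfl fun a _ => ?_
    rw [norm_mul, w_norm, one_mul]
  have b3 : ‖(∑ a ∈ A, (z a - w a)) ^ 2‖ ≤ 36 * (125 / 10 ^ 12) := by
    rw [norm_pow]
    have h3 : ‖∑ a ∈ A, (z a - w a)‖ ≤ ∑ a ∈ A, ‖z a - w a‖ := norm_sum_le _ _
    have h4 : (∑ a ∈ A, ‖z a - w a‖) ^ 2 ≤ (A.card : ℝ) * ∑ a ∈ A, ‖z a - w a‖ ^ 2 :=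
      sq_sum_le_card_mul_sum_sq
    rw [hcard] at h4
    have h5 : ‖∑ a ∈ A, (z a - w a)‖ ^ 2 ≤ (∑ a ∈ A, ‖z a - w a‖) ^ 2 :=
      pow_le_pow_left₀ (norm_nonneg _) h3 2
    push_cast at h4
    linarith
  have b4 : ‖∑ a ∈ A, (z a - w a) ^ 2‖ ≤ 125 / 10 ^ 12 := by
    refine (norm_sum_le _ _).trans (le_trans (le_of_eq ?_) hQle)
    refine Finset.sum_congr rfl fun a _ => ?_
    rw [norm_pow]
  have b5 : ‖((∑ a ∈ A, (z a - w a)) ^ 2 - ∑ a ∈ A, (z a - w a) ^ 2) / 2‖ ≤ (36 * (125 / 10 ^ 12) + 125 / 10 ^ 12) / 2 := by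
    rw [norm_div]
    have : ‖(2 : ℂ)‖ = 2 := by norm_num
    rw [this]
    have := norm_sub_le ((∑ a ∈ A, (z a - w a)) ^ 2) (∑ a ∈ A, (z a - w a) ^ 2)
    linarith
  have t1 := norm_add_le (((sg U pm 1 : ℝ) : ℂ) * ∑ a ∈ A, (z a - w a - xi1 e ρ (w a))
        - ∑ a ∈ A, w a * (z a - w a - xi1 e ρ (w a))) (((∑ a ∈ A, (z a - w a)) ^ 2 - ∑ a ∈ A, (z a - w a) ^ 2) / 2)
  have t2 := norm_sub_le (((sg U pm 1 : ℝ) : ℂ) * ∑ a ∈ A, (z a - w a - xi1 e ρ (w a))) (∑ a ∈ A, w a * (z a - w a - xi1 e ρ (w a)))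
  have n1 : (2 * (13 / 10 ^ 9) : ℝ) + 13 / 10 ^ 9 + (36 * (125 / 10 ^ 12) + 125 / 10 ^ 12) / 2 ≤ 1 / 10 ^ 7 := by norm_num
  exact t1.trans ((add_le_add (t2.trans (add_le_add b1 b2)) b5).trans n1)

end Pool.Agent.Helper993.TwoN.B4
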