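import Mathlib
import Pool.Agent.Helper993.TwoN.Defs

set_option autoImplicit false
/-! Irreducible 2n conjecture: definitions for the counterexample of order 69. -/

namespace Pool.Agent.Helper993.TwoN.B6

open Polynomial
open Pool.Agent.Helper993.TwoN

theorem rl_M10306 : (1 + 1 / 5000 : ℝ) ^ 69 ≤ 1.014 := by norm_num

theorem rl_norm10306 (e : ℕ) (he : e < 2) (ω : ℂ) (hω : ω ^ 70 = (-1) ^ e) : ‖ω‖ = 1 := by
  have h : ‖ω‖ ^ 70 = 1 := by
    rw [← norm_pow, hω, norm_pow, norm_neg, norm_one, one_pow]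
  exact (pow_eq_one_iff_of_nonneg (norm_nonneg _) (by norm_num)).1 h

theorem rl_pow10306 {z ω : ℂ} (hω : ‖ω‖ = 1) (hz : ‖z - ω‖ ≤ 1 / 5000) (i : ℕ) :
    ‖z ^ i‖ ≤ (1 + 1 / 5000 : ℝ) ^ i ∧ ‖z ^ i - ω ^ i‖ ≤ (1 + 1 / 5000 : ℝ) ^ i - 1 := by
  have hzn : ‖z‖ ≤ 1 + 1 / 5000 := by
    have : z = ω + (z - ω) := by ring
    rw [this]
    exact (norm_add_le _ _).trans (by rw [hω]; linarith)
  have h1 : ∀ i : ℕ, ‖z ^ i‖ ≤ (1 + 1 / 5000 : ℝ) ^ i := fun i => by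
    rw [norm_pow]
    exact pow_le_pow_left₀ (norm_nonneg _) hzn i
  refine ⟨h1 i, ?_⟩
  induction i with
  | zero => simp
  | succ i ih =>
    have e : z ^ (i + 1) - ω ^ (i + 1) = z ^ i * (z - ω) + (z ^ i - ω ^ i) * ω := by ring
    rw [e]
    refine (norm_add_le _ _).trans ?_
    rw [norm_mul, norm_mul, hω, mul_one]
    have h2 := mul_le_mul (h1 i) hz (norm_nonneg _) (by positivity)
    rw [pow_succ]
    linarith

theorem rl_pdiff10306 {z z' : ℂ} (hz : ‖z‖ ≤ 1 + 1 / 5000) (hz' : ‖z'‖ ≤ 1 + 1 / 5000) (n : ℕ) :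
    ‖z ^ n - z' ^ n‖ ≤ n * (1 + 1 / 5000 : ℝ) ^ n * ‖z - z'‖ := by
  induction n with
  | zero => simp
  | succ n ih =>
    have e : z ^ (n + 1) - z' ^ (n + 1) = z * (z ^ n - z' ^ n) + (z - z') * z' ^ n := by ring
    rw [e]
    refine (norm_add_le _ _).trans ?_
    rw [norm_mul, norm_mul]
    have h1 : ‖z‖ * ‖z ^ n - z' ^ n‖ ≤
        (1 + 1 / 5000) * (n * (1 + 1 / 5000 : ℝ) ^ n * ‖z - z'‖) :=
      mul_le_mul hz ih (norm_nonneg _) (by norm_num)
    have h2 : ‖z' ^ n‖ ≤ (1 + 1 / 5000 : ℝ) ^ n := by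
      rw [norm_pow]
      exact pow_le_pow_left₀ (norm_nonneg _) hz' n
    have h2' : (1 + 1 / 5000 : ℝ) ^ n ≤ (1 + 1 / 5000 : ℝ) ^ (n + 1) :=
      pow_le_pow_right₀ (by norm_num) (Nat.le_succ n)
    have h3 : ‖z - z'‖ * ‖z' ^ n‖ ≤ ‖z - z'‖ * (1 + 1 / 5000 : ℝ) ^ (n + 1) :=
      mul_le_mul_of_nonneg_left (h2.trans h2') (norm_nonneg _)
    push_cast
    calc _ ≤ (1 + 1 / 5000) * (n * (1 + 1 / 5000 : ℝ) ^ n * ‖z - z'‖) +
        ‖z - z'‖ * (1 + 1 / 5000 : ℝ) ^ (n + 1) := add_le_add h1 h3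
      _ = _ := by rw [pow_succ]; ring

theorem rl_bd10306 : ∑ j ∈ Finset.Icc 1 69, bd j = 72 / 100000 := by
  have h : ∀ j : ℕ, bd j = 1 / 100000 + if j = 3 then 3 / 100000 else 0 := by
    intro j
    unfold bd
    split_ifs <;> norm_num
  simp only [h]
  rw [Finset.sum_add_distrib, Finset.sum_ite_eq']
  simp
  norm_num

theorem root_lip (e : ℕ) (he : e < 2) (ρ ρ' : ℕ → ℝ) (hρ : Box ρ) (hρ' : Box ρ') (ω z z' : ℂ)
    (hω : ω ^ 70 = (-1) ^ e) (hz : IsRoot' e ρ ω z) (hz' : IsRoot' e ρ' ω z') :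
    ‖z - z'‖ ≤ 1 / 50 * ∑ j ∈ Finset.Icc 1 69, |ρ j - ρ' j| := by
  have hn := rl_norm10306 e he ω hω
  have hM := rl_M10306
  have hzn : ‖z‖ ≤ 1 + 1 / 5000 := by simpa using (rl_pow10306 hn hz.1 1).1
  have hzn' : ‖z'‖ ≤ 1 + 1 / 5000 := by simpa using (rl_pow10306 hn hz'.1 1).1
  have hMk : ∀ k : ℕ, k ≤ 69 → (1 + 1 / 5000 : ℝ) ^ k ≤ 1.014 := fun k hk =>
    (pow_le_pow_right₀ (by norm_num) hk).trans hM
  -- the geometric sum
  set G : ℂ := ∑ i ∈ Finset.range 70, z ^ i * z' ^ (70 - 1 - i) with hG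
  have hG1 : G * (z - z') = z ^ 70 - z' ^ 70 := (Commute.all z z').geom_sum₂_mul 70
  have hGn : 69.02 ≤ ‖G‖ := by
    have h1 : ‖G - 70 * ω ^ 69‖ ≤ 70 * 0.014 := by
      have e1 : G - 70 * ω ^ 69 = ∑ i ∈ Finset.range 70, (z ^ i * z' ^ (70 - 1 - i) - ω ^ 69) := by
        rw [Finset.sum_sub_distrib, Finset.sum_const, Finset.card_range, nsmul_eq_mul]
        norm_num [hG]
      rw [e1]
      refine (norm_sum_le _ _).trans ?_
      have h2 : ∀ i ∈ Finset.range 70, ‖z ^ i * z' ^ (70 - 1 - i) - ω ^ 69‖ ≤ 0.014 := by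
        intro i hi
        have hi' : i < 70 := Finset.mem_range.1 hi
        have e2 : z ^ i * z' ^ (70 - 1 - i) - ω ^ 69 =
            z ^ i * (z' ^ (70 - 1 - i) - ω ^ (70 - 1 - i)) + (z ^ i - ω ^ i) * ω ^ (70 - 1 - i) := by
          have e3 : ω ^ 69 = ω ^ i * ω ^ (70 - 1 - i) := by
            rw [← pow_add]
            congr 1
            omega
          rw [e3]
          ring
        rw [e2]
        obtain ⟨a1, a2⟩ := rl_pow10306 hn hz.1 i
        obtain ⟨b1, b2⟩ := rl_pow10306 hn hz'.1 (70 - 1 - i)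
        have hω1 : ‖ω ^ (70 - 1 - i)‖ = 1 := by rw [norm_pow, hn, one_pow]
        refine (norm_add_le _ _).trans ?_
        rw [norm_mul, norm_mul, hω1, mul_one]
        have h3 := mul_le_mul a1 b2 (norm_nonneg _) (by positivity)
        have h4 : (1 + 1 / 5000 : ℝ) ^ i * (1 + 1 / 5000 : ℝ) ^ (70 - 1 - i) ≤ 1.014 := by
          rw [← pow_add]
          exact hMk _ (by omega)
        linarith
      refine (Finset.sum_le_sum h2).trans ?_
      rw [Finset.sum_const, Finset.card_range, nsmul_eq_mul]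
      norm_num
    have h5 : ‖(70 : ℂ) * ω ^ 69‖ = 70 := by
      rw [norm_mul, norm_pow, hn, one_pow, mul_one]
      norm_num
    have h6 : ‖(70 : ℂ) * ω ^ 69‖ ≤ ‖G‖ + ‖G - 70 * ω ^ 69‖ := by
      have : (70 : ℂ) * ω ^ 69 = G - (G - 70 * ω ^ 69) := by ring
      conv_lhs => rw [this]
      exact norm_sub_le _ _
    rw [h5] at h6
    linarith
  -- the perturbation
  have hsum : ∑ j ∈ Finset.Icc 1 69, |ρ j| ≤ 72 / 100000 := by
    rw [← rl_bd10306]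
    exact Finset.sum_le_sum hρ
  have hr : ‖r ρ z - r ρ z'‖ ≤ 0.051 * ‖z - z'‖ := by
    unfold r
    rw [← Finset.sum_sub_distrib]
    refine (norm_sum_le _ _).trans ?_
    have h1 : ∀ j ∈ Finset.Icc 1 69, ‖(ρ j : ℂ) * z ^ (70 - j) - (ρ j : ℂ) * z' ^ (70 - j)‖ ≤
        |ρ j| * (69 * 1.014 * ‖z - z'‖) := by
      intro j hj
      have hj' := Finset.mem_Icc.1 hj
      rw [← mul_sub, norm_mul, Complex.norm_real, Real.norm_eq_abs]
      apply mul_le_mul_of_nonneg_left _ (abs_nonneg _)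
      refine (rl_pdiff10306 hzn hzn' (70 - j)).trans ?_
      apply mul_le_mul_of_nonneg_right _ (norm_nonneg _)
      have h2 : ((70 - j : ℕ) : ℝ) ≤ 69 := by
        have : 70 - j ≤ 69 := by omega
        exact_mod_cast this
      exact mul_le_mul h2 (hMk _ (by omega)) (by positivity) (by norm_num)
    refine (Finset.sum_le_sum h1).trans ?_
    rw [← Finset.sum_mul]
    have h3 := norm_nonneg (z - z')
    calc (∑ j ∈ Finset.Icc 1 69, |ρ j|) * (69 * 1.014 * ‖z - z'‖) ≤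
        72 / 100000 * (69 * 1.014 * ‖z - z'‖) :=
          mul_le_mul_of_nonneg_right hsum (by positivity)
      _ ≤ 0.051 * ‖z - z'‖ := by nlinarith
  -- the right side
  have hR : ‖r ρ' z' - r ρ z'‖ ≤ 1.014 * ∑ j ∈ Finset.Icc 1 69, |ρ j - ρ' j| := by
    unfold r
    rw [← Finset.sum_sub_distrib, Finset.mul_sum]
    refine (norm_sum_le _ _).trans (Finset.sum_le_sum fun j hj => ?_)
    have hj' := Finset.mem_Icc.1 hj
    have e1 : (ρ' j : ℂ) * z' ^ (70 - j) - (ρ j : ℂ) * z' ^ (70 - j) =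
      ((ρ' j - ρ j : ℝ) : ℂ) * z' ^ (70 - j) := by push_cast; ring
    rw [e1, norm_mul, Complex.norm_real, Real.norm_eq_abs, abs_sub_comm, mul_comm]
    apply mul_le_mul_of_nonneg_right _ (abs_nonneg _)
    exact ((rl_pow10306 hn hz'.1 (70 - j)).1).trans (hMk _ (by omega))
  have heq : G * (z - z') = (r ρ' z' - r ρ z') - (r ρ z - r ρ z') := by
    rw [hG1]
    have h1 := hz.2
    have h2 := hz'.2
    linear_combination h1 - h2
  have hfin : ‖G‖ * ‖z - z'‖ ≤ 1.014 * (∑ j ∈ Finset.Icc 1 69, |ρ j - ρ' j|) +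
      0.051 * ‖z - z'‖ := by
    rw [← norm_mul, heq]
    exact (norm_sub_le _ _).trans (add_le_add hR hr)
  have h7 := mul_le_mul_of_nonneg_right hGn (norm_nonneg (z - z'))
  have h8 : 0 ≤ ∑ j ∈ Finset.Icc 1 69, |ρ j - ρ' j| := Finset.sum_nonneg fun _ _ => abs_nonneg _
  have h9 := norm_nonneg (z - z')
  nlinarith

end Pool.Agent.Helper993.TwoN.B6
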