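import Mathlib
import Pool.Agent.Helper993.TwoN.Defs

set_option autoImplicit false
/-! Irreducible 2n conjecture: definitions for the counterexample of order 69. -/

namespace Pool.Agent.Helper993.TwoN.B7

open Polynomial
open Pool.Agent.Helper993.TwoN

theorem family_exists
    (root_existsUnique : ∀ (e : ℕ), e < 2 → ∀ (ρ : ℕ → ℝ), Box ρ → ∀ (ω : ℂ),
      ω ^ 70 = (-1) ^ e → ∃! z : ℂ, IsRoot' e ρ ω z)
    (root_lip : ∀ (e : ℕ), e < 2 → ∀ (ρ ρ' : ℕ → ℝ), Box ρ → Box ρ' → ∀ (ω z z' : ℂ),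
      ω ^ 70 = (-1) ^ e → IsRoot' e ρ ω z → IsRoot' e ρ' ω z' →
      ‖z - z'‖ ≤ 1 / 50 * ∑ j ∈ Finset.Icc 1 69, |ρ j - ρ' j|)
    (sum_est : ∀ (e : ℕ), e < 2 → ∀ (ρ : ℕ → ℝ), Box ρ → ∀ (z : ℕ → ℂ),
      (∀ a ∈ PAR e, IsRoot' e ρ (w a) (z a)) →
      ∑ a ∈ PAR e, ‖z a - w a‖ ^ 2 ≤ 125 / 10 ^ 12 ∧
      ∑ a ∈ PAR e, ‖z a - w a - xi1 e ρ (w a)‖ ≤ 13 / 10 ^ 9)
    (e2_est : ∀ (e : ℕ) (U : Finset ℕ) (pm : Bool), Valid e U pm → |sg U pm 1| ≤ 2 →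
      ∀ (ρ : ℕ → ℝ), Box ρ → ∀ (z : ℕ → ℂ),
      ∑ a ∈ PAR e, ‖z a - w a‖ ^ 2 ≤ 125 / 10 ^ 12 →
      ∑ a ∈ PAR e, ‖z a - w a - xi1 e ρ (w a)‖ ≤ 13 / 10 ^ 9 →
      ‖((∑ a ∈ full U pm, z a) ^ 2 - ∑ a ∈ full U pm, (z a) ^ 2) / 2
      - ((eta U pm + L U pm ρ : ℝ) : ℂ)‖ ≤ 1 / 10 ^ 7)
    (coeff_pert : ∀ (A : Finset ℕ), A.card ≤ 36 → ∀ (v z : ℕ → ℂ), (∀ a ∈ A, ‖v a‖ = 1) →
      ∑ a ∈ A, ‖z a - v a‖ ≤ 1 / 10000 → ∀ (i : ℕ),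
      ‖(∏ a ∈ A, (X - C (z a))).coeff i - (∏ a ∈ A, (X - C (v a))).coeff i‖
      ≤ 11 / 100000 * ∑ i ∈ Finset.range 71, ‖(∏ a ∈ A, (X - C (v a))).coeff i‖)
    (w_pow : ∀ (e a : ℕ), a ∈ PAR e → (w a) ^ 70 = (-1) ^ e)
    (w_conj : ∀ (a : ℕ), a ≤ 140 → (starRingEnd ℂ) (w a) = w (140 - a))
    (w_norm : ∀ (a : ℕ), ‖w a‖ = 1)
    (full_union : ∀ (e : ℕ) (U : Finset ℕ) (pm : Bool), Valid e U pm →
      full U pm ⊆ PAR e ∧ full (comp e U) (cpm e pm) = PAR e \ full U pm ∧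
      (full U pm).card = 36 ∧ (full (comp e U) (cpm e pm)).card = 34)
    (full_sub : ∀ (e : ℕ) (U : Finset ℕ) (pm : Bool), U ⊆ UP e → (pm = true → e = 0) →
      e < 2 → full U pm ⊆ PAR e ∧ ∀ a ∈ full U pm, (a = 0 ∨ (140 - a) ∈ full U pm))
    (FU_map : ∀ (e : ℕ) (U : Finset ℕ) (pm : Bool), U ⊆ UP e → (pm = true → e = 0) →
      (FU U pm).map (algebraMap ℝ ℂ) = ∏ a ∈ full U pm, (X - C (w a)))
    (coeff_top1 : ∀ (A : Finset ℕ) (n : ℕ), A.card = n + 1 → ∀ (z : ℕ → ℂ),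
      (∏ a ∈ A, (X - C (z a))).coeff n = -∑ a ∈ A, z a)
    (coeff_top2 : ∀ (A : Finset ℕ) (n : ℕ), A.card = n + 2 → ∀ (z : ℕ → ℂ),
      (∏ a ∈ A, (X - C (z a))).coeff n = ((∑ a ∈ A, z a) ^ 2 - ∑ a ∈ A, (z a) ^ 2) / 2)
    (coeff_cont : ∀ (A : Finset ℕ) (z : ℝ → ℕ → ℂ) (s : Set ℝ),
      (∀ a ∈ A, ContinuousOn (fun τ => z τ a) s) → ∀ (i : ℕ),
      ContinuousOn (fun τ => (∏ a ∈ A, (X - C (z τ a))).coeff i) s)
    (real_prod : ∀ (A : Finset ℕ) (σ : ℕ → ℕ), (∀ a ∈ A, σ a ∈ A) →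
      (∀ a ∈ A, ∀ b ∈ A, σ a = σ b → a = b) → ∀ (z : ℕ → ℂ),
      (∀ a ∈ A, (starRingEnd ℂ) (z a) = z (σ a)) →
      ∃ F : ℝ[X], F.map (algebraMap ℝ ℂ) = ∏ a ∈ A, (X - C (z a)) ∧ F.Monic ∧
      F.natDegree = A.card)
    (P_prod : ∀ (e : ℕ), e < 2 → ∀ (ρ : ℕ → ℝ) (z : ℕ → ℂ),
      (∀ a ∈ PAR e, IsRoot' e ρ (w a) (z a)) →
      (P ρ e).map (algebraMap ℝ ℂ) = ∏ a ∈ PAR e, (X - C (z a)))
    (z_conj : ∀ (e : ℕ), e < 2 → ∀ (ρ : ℕ → ℝ), Box ρ → ∀ (z : ℕ → ℂ),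
      (∀ a ∈ PAR e, IsRoot' e ρ (w a) (z a)) → ∀ (a b : ℕ), a ∈ PAR e → b ∈ PAR e →
      (starRingEnd ℂ) (w a) = w b → (starRingEnd ℂ) (z a) = z b)
    (e : ℕ) (U : Finset ℕ) (pm : Bool) (hV : Valid e U pm) :
    ∃ F1 F2 : (ℕ → ℝ) → ℝ[X], Family e U pm F1 F2 := by
  classical
  have he : e < 2 := hV.he
  let ζ : (ℕ → ℝ) → ℕ → ℂ := fun ρ a => if h : Box ρ ∧ a ∈ PAR e then
    (root_existsUnique e he ρ h.1 (w a) (w_pow e a h.2)).choose else 0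
  have hz : ∀ ρ, Box ρ → ∀ a ∈ PAR e, IsRoot' e ρ (w a) (ζ ρ a) := by
    intro ρ hB a ha
    have h : Box ρ ∧ a ∈ PAR e := ⟨hB, ha⟩
    have h1 : ζ ρ a = (root_existsUnique e he ρ h.1 (w a) (w_pow e a h.2)).choose := dif_pos h
    rw [h1]
    exact (root_existsUnique e he ρ h.1 (w a) (w_pow e a h.2)).choose_spec.1
  have hlt : ∀ a ∈ PAR e, a < 140 := fun a ha => by
    have := (Finset.mem_filter.1 ha).1
    exact Finset.mem_range.1 this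
  have hw0 : w 0 = 1 := by simp [w]
  have hex : ∀ A : Finset ℕ, A ⊆ PAR e → (∀ a ∈ A, (a = 0 ∨ (140 - a) ∈ A)) → ∀ ρ, Box ρ →
      ∃ F : ℝ[X], F.map (algebraMap ℝ ℂ) = ∏ a ∈ A, (X - C (ζ ρ a)) ∧ F.Monic ∧
      F.natDegree = A.card := by
    intro A hA hA' ρ hB
    have hσ : ∀ a ∈ A, (if a = 0 then 0 else 140 - a) ∈ A := by
      intro a ha
      split_ifs with h0
      · rw [← h0]; exact ha
      · exact (hA' a ha).resolve_left h0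
    refine real_prod A (fun a => if a = 0 then 0 else 140 - a) hσ ?_ (ζ ρ) ?_
    · intro a ha b hb hab
      have h1 := hlt a (hA ha)
      have h2 := hlt b (hA hb)
      have hab' : (if a = 0 then 0 else 140 - a) = (if b = 0 then 0 else 140 - b) := hab
      split_ifs at hab' <;> omega
    · intro a ha
      refine z_conj e he ρ hB (ζ ρ) (hz ρ hB) a _ (hA ha) (hA (hσ a ha)) ?_
      by_cases h0 : a = 0
      · rw [if_pos h0, h0, hw0, map_one]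
      · rw [if_neg h0]
        exact w_conj a (hlt a (hA ha)).le
  have hBox0 : Box (fun _ => 0) := by
    intro j _
    simp only [abs_zero, bd]
    split_ifs <;> norm_num
  have hζ0 : ∀ a ∈ PAR e, ζ (fun _ => 0) a = w a := by
    intro a ha
    refine (root_existsUnique e he _ hBox0 (w a) (w_pow e a ha)).unique (hz _ hBox0 a ha) ⟨?_, ?_⟩
    · rw [sub_self, norm_zero]; norm_num
    · rw [w_pow e a ha]
      simp [r]
  have hsum : ∀ A : Finset ℕ, A ⊆ PAR e → A.card ≤ 36 → ∀ ρ, Box ρ →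
      ∑ a ∈ A, ‖ζ ρ a - w a‖ ≤ 1 / 10000 := by
    intro A hA hc ρ hB
    have h1 := (sum_est e he ρ hB (ζ ρ) (hz ρ hB)).1
    have h2 : (∑ a ∈ A, ‖ζ ρ a - w a‖) ^ 2 ≤ (A.card : ℝ) * ∑ a ∈ A, ‖ζ ρ a - w a‖ ^ 2 :=
      sq_sum_le_card_mul_sum_sq
    have h3 : ∑ a ∈ A, ‖ζ ρ a - w a‖ ^ 2 ≤ ∑ a ∈ PAR e, ‖ζ ρ a - w a‖ ^ 2 :=
      Finset.sum_le_sum_of_subset_of_nonneg hA fun _ _ _ => sq_nonneg _
    have h4 : (A.card : ℝ) ≤ 36 := by exact_mod_cast hc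
    have h5 : 0 ≤ ∑ a ∈ A, ‖ζ ρ a - w a‖ ^ 2 := Finset.sum_nonneg fun _ _ => sq_nonneg _
    have h6 : (∑ a ∈ A, ‖ζ ρ a - w a‖) ^ 2 ≤ (1 / 10000) ^ 2 := by
      calc (∑ a ∈ A, ‖ζ ρ a - w a‖) ^ 2 ≤ (A.card : ℝ) * ∑ a ∈ A, ‖ζ ρ a - w a‖ ^ 2 := h2
        _ ≤ 36 * (125 / 10 ^ 12) := mul_le_mul h4 (h3.trans h1) h5 (by norm_num)
        _ ≤ (1 / 10000) ^ 2 := by norm_num
    exact (abs_le_of_sq_le_sq' h6 (by norm_num)).2
  have hcoe : ∀ (F : ℝ[X]) (i : ℕ), (F.map (algebraMap ℝ ℂ)).coeff i = ((F.coeff i : ℝ) : ℂ) := by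
    intro F i
    rw [Polynomial.coeff_map]
    rfl
  have hnorm : ∀ x y : ℝ, ‖(x : ℂ) - (y : ℂ)‖ = |x - y| := by
    intro x y
    rw [← Complex.ofReal_sub, Complex.norm_real, Real.norm_eq_abs]
  have hclose : ∀ A : Finset ℕ, A ⊆ PAR e → A.card ≤ 36 → ∀ ρ, Box ρ → ∀ F G : ℝ[X],
      F.map (algebraMap ℝ ℂ) = ∏ a ∈ A, (X - C (ζ ρ a)) →
      G.map (algebraMap ℝ ℂ) = ∏ a ∈ A, (X - C (w a)) → ∀ i,
      |F.coeff i - G.coeff i| ≤ 11 / 100000 * nrm G := by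
    intro A hA hc ρ hB F G hF hG i
    have h1 := coeff_pert A hc w (ζ ρ) (fun a _ => w_norm a) (hsum A hA hc ρ hB) i
    rw [← hF, ← hG] at h1
    simp only [hcoe] at h1
    rw [hnorm] at h1
    simp only [Complex.norm_real, Real.norm_eq_abs] at h1
    exact h1
  have htop : ∀ (A : Finset ℕ) (n : ℕ), A ⊆ PAR e → A.card ≤ 36 → A.card = n + 1 → ∀ ρ, Box ρ →
      ∀ F G : ℝ[X],
      F.map (algebraMap ℝ ℂ) = ∏ a ∈ A, (X - C (ζ ρ a)) →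
      G.map (algebraMap ℝ ℂ) = ∏ a ∈ A, (X - C (w a)) →
      |F.coeff n - G.coeff n| ≤ 1 / 10000 := by
    intro A n hA hc hn ρ hB F G hF hG
    rw [← hnorm, ← hcoe, ← hcoe, hF, hG, coeff_top1 A n hn, coeff_top1 A n hn]
    have h1 : -∑ a ∈ A, ζ ρ a - -∑ a ∈ A, w a = -∑ a ∈ A, (ζ ρ a - w a) := by
      rw [Finset.sum_sub_distrib]; ring
    rw [h1, norm_neg]
    exact (norm_sum_le _ _).trans (hsum A hA hc ρ hB)
  obtain ⟨s1, s2, c1, c2⟩ := full_union e U pm hV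
  have hU2 : comp e U ⊆ UP e := Finset.sdiff_subset
  have hp2 : cpm e pm = true → e = 0 := by
    unfold cpm
    intro h
    simp at h
    exact h.1
  obtain ⟨-, t1⟩ := full_sub e U pm hV.hU hV.hp he
  obtain ⟨s2', t2⟩ := full_sub e (comp e U) (cpm e pm) hU2 hp2 he
  have ex1 := hex _ s1 t1
  have ex2 := hex _ s2' t2
  have m1 := FU_map e U pm hV.hU hV.hp
  have m2 := FU_map e (comp e U) (cpm e pm) hU2 hp2
  have c1' : (full U pm).card ≤ 36 := c1.le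
  have c2' : (full (comp e U) (cpm e pm)).card ≤ 36 := by rw [c2]; norm_num
  let F1 : (ℕ → ℝ) → ℝ[X] := fun ρ => if h : Box ρ then (ex1 ρ h).choose else 1
  let F2 : (ℕ → ℝ) → ℝ[X] := fun ρ => if h : Box ρ then (ex2 ρ h).choose else 1
  have hF1 : ∀ ρ, Box ρ → (F1 ρ).map (algebraMap ℝ ℂ) = ∏ a ∈ full U pm, (X - C (ζ ρ a)) ∧
      (F1 ρ).Monic ∧ (F1 ρ).natDegree = (full U pm).card := by
    intro ρ hB
    have h1 : F1 ρ = (ex1 ρ hB).choose := dif_pos hB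
    rw [h1]
    exact (ex1 ρ hB).choose_spec
  have hF2 : ∀ ρ, Box ρ → (F2 ρ).map (algebraMap ℝ ℂ) =
      ∏ a ∈ full (comp e U) (cpm e pm), (X - C (ζ ρ a)) ∧
      (F2 ρ).Monic ∧ (F2 ρ).natDegree = (full (comp e U) (cpm e pm)).card := by
    intro ρ hB
    have h1 : F2 ρ = (ex2 ρ hB).choose := dif_pos hB
    rw [h1]
    exact (ex2 ρ hB).choose_spec
  have hinj : Function.Injective (Polynomial.map (algebraMap ℝ ℂ)) :=
    Polynomial.map_injective (algebraMap ℝ ℂ) (algebraMap ℝ ℂ).injective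
  refine ⟨F1, F2, ?_⟩
  refine
    { monic1 := fun ρ hB => (hF1 ρ hB).2.1
      deg1 := fun ρ hB => (hF1 ρ hB).2.2.trans c1
      monic2 := fun ρ hB => (hF2 ρ hB).2.1
      deg2 := fun ρ hB => (hF2 ρ hB).2.2.trans c2
      prod := ?_
      zero1 := ?_
      zero2 := ?_
      close1 := fun ρ hB i => hclose _ s1 c1' ρ hB _ _ (hF1 ρ hB).1 m1 i
      close2 := fun ρ hB i => hclose _ s2' c2' ρ hB _ _ (hF2 ρ hB).1 m2 i
      top1 := fun ρ hB => htop _ 35 s1 c1' c1 ρ hB _ _ (hF1 ρ hB).1 m1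
      top2 := fun ρ hB => htop _ 33 s2' c2' c2 ρ hB _ _ (hF2 ρ hB).1 m2
      e2 := ?_
      cont := ?_ }
  · intro ρ hB
    apply hinj
    rw [Polynomial.map_mul, (hF1 ρ hB).1, (hF2 ρ hB).1, s2, P_prod e he ρ (ζ ρ) (hz ρ hB), mul_comm]
    exact Finset.prod_sdiff s1
  · apply hinj
    rw [(hF1 _ hBox0).1, m1]
    exact Finset.prod_congr rfl fun a ha => by rw [hζ0 a (s1 ha)]
  · apply hinj
    rw [(hF2 _ hBox0).1, m2]
    exact Finset.prod_congr rfl fun a ha => by rw [hζ0 a (s2' ha)]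
  · intro hsg ρ hB
    obtain ⟨q1, q2⟩ := sum_est e he ρ hB (ζ ρ) (hz ρ hB)
    have h1 := e2_est e U pm hV hsg ρ hB (ζ ρ) q1 q2
    rw [← coeff_top2 (full U pm) 34 c1 (ζ ρ), ← (hF1 ρ hB).1, hcoe, hnorm] at h1
    refine h1.trans ?_
    norm_num
  · intro γ T hγ hB i
    have hc : ∀ a ∈ full U pm, ContinuousOn (fun τ => ζ (γ τ) a) (Set.Icc 0 T) := by
      intro a ha τ₀ hτ₀
      have ha' := s1 ha
      unfold ContinuousWithinAt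
      rw [tendsto_iff_norm_sub_tendsto_zero]
      have hb : ∀ τ ∈ Set.Icc 0 T, ‖ζ (γ τ) a - ζ (γ τ₀) a‖ ≤
          1 / 50 * ∑ j ∈ Finset.Icc 1 69, |γ τ j - γ τ₀ j| := fun τ hτ =>
        root_lip e he (γ τ) (γ τ₀) (hB τ hτ) (hB τ₀ hτ₀) (w a) _ _ (w_pow e a ha')
          (hz _ (hB τ hτ) a ha') (hz _ (hB τ₀ hτ₀) a ha')
      have hg : Continuous (fun τ => 1 / 50 * ∑ j ∈ Finset.Icc 1 69, |γ τ j - γ τ₀ j|) := by
        refine continuous_const.mul (continuous_finsetSum _ fun j _ => ?_)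
        exact ((hγ j).sub continuous_const).abs
      have hg0 : Filter.Tendsto (fun τ => 1 / 50 * ∑ j ∈ Finset.Icc 1 69, |γ τ j - γ τ₀ j|)
          (nhdsWithin τ₀ (Set.Icc 0 T)) (nhds 0) := by
        have := (hg.tendsto τ₀).mono_left (nhdsWithin_le_nhds (s := Set.Icc 0 T))
        simpa using this
      refine squeeze_zero' (Filter.Eventually.of_forall fun _ => norm_nonneg _) ?_ hg0
      filter_upwards [self_mem_nhdsWithin] with τ hτ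
      exact hb τ hτ
    have h1 := coeff_cont (full U pm) (fun τ => ζ (γ τ)) (Set.Icc 0 T) hc i
    have h2 : ContinuousOn (fun τ => ((∏ a ∈ full U pm, (X - C (ζ (γ τ) a))).coeff i).re)
        (Set.Icc 0 T) := Complex.continuous_re.comp_continuousOn h1
    refine h2.congr fun τ hτ => ?_
    simp only []
    rw [← (hF1 _ (hB τ hτ)).1, hcoe, Complex.ofReal_re]

end Pool.Agent.Helper993.TwoN.B7
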