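import Mathlib
import Pool.Agent.Helper993.TwoN.Defs

set_option autoImplicit false
/-! Irreducible 2n conjecture: definitions for the counterexample of order 69. -/

namespace Pool.Agent.Helper993.TwoN.B7b

open Polynomial
open Pool.Agent.Helper993.TwoN

theorem mem_UP (e a : ℕ) : a ∈ UP e ↔ 0 < a ∧ a < 70 ∧ a % 2 = e := by
  simp [UP, and_assoc]

theorem mem_PAR (e a : ℕ) : a ∈ PAR e ↔ a < 140 ∧ a % 2 = e := by
  simp [PAR]

theorem mem_full (U : Finset ℕ) (pm : Bool) (a : ℕ) :
    a ∈ full U pm ↔ a ∈ U ∨ (∃ b ∈ U, 140 - b = a) ∨ (pm = true ∧ (a = 0 ∨ a = 70)) := by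
  cases pm
  · simp [full]
  · have : (∃ b ∈ U, 140 - b = a) ↔ a ∈ U.image (fun a => 140 - a) := by simp
    rw [this]
    unfold full
    generalize U.image (fun a => 140 - a) = V
    simp only [if_true, Finset.mem_union, Finset.mem_insert, Finset.mem_singleton, true_and]
    tauto

theorem full_sub (e : ℕ) (U : Finset ℕ) (pm : Bool) (hU : U ⊆ UP e) (hp : pm = true → e = 0)
    (he : e < 2) : full U pm ⊆ PAR e ∧
    ∀ a ∈ full U pm, (a = 0 ∨ (140 - a) ∈ full U pm) := by
  constructor
  · intro a ha
    rw [mem_full] at ha
    rw [mem_PAR]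
    rcases ha with h | ⟨b, hb, rfl⟩ | ⟨h, h'⟩
    · have := (mem_UP e a).1 (hU h); omega
    · have := (mem_UP e b).1 (hU hb); omega
    · have := hp h; omega
  · intro a ha
    rw [mem_full] at ha
    rw [mem_full]
    rcases ha with h | ⟨b, hb, rfl⟩ | ⟨h, h'⟩
    · right; right; left; exact ⟨a, h, rfl⟩
    · right; left
      have := (mem_UP e b).1 (hU hb)
      have hh : 140 - (140 - b) = b := by omega
      rw [hh]; exact hb
    · rcases h' with h' | h'
      · left; exact h'
      · right; right; right; exact ⟨h, by right; omega⟩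

theorem full_card (e : ℕ) (U : Finset ℕ) (pm : Bool) (hU : U ⊆ UP e) :
    (full U pm).card = 2 * (U.card + (if pm then 1 else 0)) := by
  have hinj : (U.image (fun a => 140 - a)).card = U.card := by
    apply Finset.card_image_of_injOn
    intro a ha b hb hab
    have h1 := (mem_UP e a).1 (hU ha)
    have h2 := (mem_UP e b).1 (hU hb)
    simp only at hab
    omega
  have hd : Disjoint U (U.image (fun a => 140 - a)) := by
    rw [Finset.disjoint_left]
    intro a ha hb
    rw [Finset.mem_image] at hb
    obtain ⟨b, hb, hab⟩ := hb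
    have h1 := (mem_UP e a).1 (hU ha)
    have h2 := (mem_UP e b).1 (hU hb)
    omega
  have hd2 : Disjoint (U ∪ U.image (fun a => 140 - a)) (if pm then ({0, 70} : Finset ℕ) else ∅) := by
    cases pm with
    | false => simp
    | true =>
      rw [Finset.disjoint_left]
      intro a ha hb
      simp only [if_true, Finset.mem_insert, Finset.mem_singleton] at hb
      rw [Finset.mem_union, Finset.mem_image] at ha
      rcases ha with h | ⟨b, h, hab⟩
      · have h1 := (mem_UP e a).1 (hU h); omega
      · have h1 := (mem_UP e b).1 (hU h); omega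
  unfold full
  rw [Finset.card_union_of_disjoint hd2, Finset.card_union_of_disjoint hd, hinj]
  cases pm <;> simp <;> omega

theorem UP_card (e : ℕ) (he : e < 2) : (UP e).card = if e = 0 then 34 else 35 := by
  interval_cases e <;> decide +kernel

theorem full_union (e : ℕ) (U : Finset ℕ) (pm : Bool) (hV : Valid e U pm) :
    full U pm ⊆ PAR e ∧ full (comp e U) (cpm e pm) = PAR e \ full U pm ∧
    (full U pm).card = 36 ∧ (full (comp e U) (cpm e pm)).card = 34 := by
  obtain ⟨he, hU, hc, hp⟩ := hV
  have h1 := (full_sub e U pm hU hp he).1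
  have hcomp : comp e U ⊆ UP e := Finset.sdiff_subset
  have hcc : (comp e U).card = (UP e).card - U.card := by
    unfold comp; rw [Finset.card_sdiff_of_subset hU]
  refine ⟨h1, ?_, ?_, ?_⟩
  · ext a
    rw [Finset.mem_sdiff, mem_full, mem_full, mem_PAR]
    have hcm : ∀ b, b ∈ comp e U ↔ (b ∈ UP e ∧ b ∉ U) := by
      intro b; unfold comp; rw [Finset.mem_sdiff]
    have hcp : cpm e pm = true ↔ (e = 0 ∧ pm = false) := by
      unfold cpm; cases pm <;> simp
    constructor
    · rintro (h | ⟨b, hb, rfl⟩ | ⟨h, h'⟩)
      · rw [hcm] at h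
        have h2 := (mem_UP e a).1 h.1
        refine ⟨by omega, ?_⟩
        rintro (h3 | ⟨b, hb, hab⟩ | ⟨h3, h4⟩)
        · exact h.2 h3
        · have h4 := (mem_UP e b).1 (hU hb)
          omega
        · omega
      · rw [hcm] at hb
        have h2 := (mem_UP e b).1 hb.1
        refine ⟨by omega, ?_⟩
        rintro (h3 | ⟨c, hc', hab⟩ | ⟨h3, h4⟩)
        · have h4 := (mem_UP e _).1 (hU h3)
          omega
        · have h4 := (mem_UP e _).1 (hU hc')
          have : c = b := by omega
          subst this
          exact hb.2 hc'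
        · omega
      · rw [hcp] at h
        refine ⟨by omega, ?_⟩
        rintro (h3 | ⟨c, hc', hab⟩ | ⟨h3, h4⟩)
        · have h4 := (mem_UP e _).1 (hU h3)
          omega
        · have h4 := (mem_UP e _).1 (hU hc')
          omega
        · rw [h.2] at h3; exact absurd h3 (by decide)
    · rintro ⟨⟨h3, h4⟩, h5⟩
      push Not at h5
      obtain ⟨h6, h7, h8⟩ := h5
      by_cases ha : a = 0 ∨ a = 70
      · right; right
        rw [hcp]
        refine ⟨⟨by omega, ?_⟩, ha⟩
        cases pm with
        | false => rfl
        | true =>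
          exfalso
          have := h8 rfl
          omega
      · by_cases hlt : a < 70
        · left
          rw [hcm]
          exact ⟨(mem_UP e a).2 (by omega), h6⟩
        · right; left
          refine ⟨140 - a, ?_, by omega⟩
          rw [hcm]
          refine ⟨(mem_UP e _).2 (by omega), ?_⟩
          intro h9
          exact h7 _ h9 (by omega)
  · rw [full_card e U pm hU, hc]
  · rw [full_card e _ _ hcomp, hcc, UP_card e he]
    have hle := Finset.card_le_card hU
    rw [UP_card e he] at hle
    unfold cpm
    interval_cases e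
    · cases pm <;> simp at hc hle ⊢ <;> omega
    · cases pm with
      | false => simp at hc hle ⊢; omega
      | true => exact absurd (hp rfl) (by decide)

end Pool.Agent.Helper993.TwoN.B7b
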