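import Mathlib
import Pool.Agent.Helper993.TwoN.Defs

set_option autoImplicit false

namespace Pool.Agent.Helper993.TwoN.B7d

open Polynomial
open Pool.Agent.Helper993.TwoN

theorem coeff_joint (A : Finset ℕ) (z : ℕ → ℂ) :
    (∏ a ∈ A, (X - C (z a))).coeff A.card = 1 ∧
    (∏ a ∈ A, (X - C (z a))).coeff (A.card + 1) = 0 ∧
    (∀ n, A.card = n + 1 → (∏ a ∈ A, (X - C (z a))).coeff n = -∑ a ∈ A, z a) ∧
    (∀ n, A.card = n + 2 →
      (∏ a ∈ A, (X - C (z a))).coeff n = ((∑ a ∈ A, z a) ^ 2 - ∑ a ∈ A, (z a) ^ 2) / 2) := by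
  classical
  induction A using Finset.induction_on with
  | empty =>
    refine ⟨by simp, by simp [Polynomial.coeff_one], ?_, ?_⟩
    · intro n hn
      simp at hn
    · intro n hn
      simp at hn
  | insert b A hb ih =>
    obtain ⟨h1, h0, h2, h3⟩ := ih
    rw [Finset.prod_insert hb, Finset.card_insert_of_notMem hb]
    have hmul : ∀ k, ((X - C (z b)) * ∏ a ∈ A, (X - C (z a))).coeff (k + 1) =
        (∏ a ∈ A, (X - C (z a))).coeff k - z b * (∏ a ∈ A, (X - C (z a))).coeff (k + 1) := by
      intro k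
      rw [sub_mul, coeff_sub, coeff_X_mul, coeff_C_mul]
    have hmul0 : ((X - C (z b)) * ∏ a ∈ A, (X - C (z a))).coeff 0 =
        - (z b * (∏ a ∈ A, (X - C (z a))).coeff 0) := by
      rw [sub_mul, coeff_sub, coeff_C_mul]
      simp
    have hdeg : (∏ a ∈ A, (X - C (z a))).natDegree = A.card := by
      rw [natDegree_prod_of_monic _ _ (fun a _ => monic_X_sub_C _)]
      simp
    refine ⟨?_, ?_, ?_, ?_⟩
    · rw [hmul, h1, h0]; ring
    · rw [hmul, h0, coeff_eq_zero_of_natDegree_lt (by rw [hdeg]; omega)]; ring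
    · intro n hn
      have hn' : A.card = n := by omega
      rw [Finset.sum_insert hb]
      rcases n with _ | n
      · have hA : A = ∅ := Finset.card_eq_zero.1 hn'
        rw [hmul0]
        subst hA
        simp
      · rw [hmul, h2 n (by omega)]
        have h1' : (∏ a ∈ A, (X - C (z a))).coeff (n + 1) = 1 := by rw [← hn']; exact h1
        rw [h1']; ring
    · intro n hn
      have hn' : A.card = n + 1 := by omega
      rw [Finset.sum_insert hb, Finset.sum_insert hb]
      rcases n with _ | n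
      · rw [hmul0, h2 0 (by omega)]
        obtain ⟨c, hc⟩ := Finset.card_eq_one.1 hn'
        subst hc
        simp
        ring
      · rw [hmul, h3 n (by omega), h2 (n + 1) hn']
        ring

theorem coeff_top1 (A : Finset ℕ) (n : ℕ) (hA : A.card = n + 1) (z : ℕ → ℂ) :
    (∏ a ∈ A, (X - C (z a))).coeff n = -∑ a ∈ A, z a :=
  (coeff_joint A z).2.2.1 n hA

theorem coeff_top2 (A : Finset ℕ) (n : ℕ) (hA : A.card = n + 2) (z : ℕ → ℂ) :
    (∏ a ∈ A, (X - C (z a))).coeff n = ((∑ a ∈ A, z a) ^ 2 - ∑ a ∈ A, (z a) ^ 2) / 2 :=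
  (coeff_joint A z).2.2.2 n hA

theorem coeff_cont (A : Finset ℕ) (z : ℝ → ℕ → ℂ) (s : Set ℝ)
    (hz : ∀ a ∈ A, ContinuousOn (fun τ => z τ a) s) (i : ℕ) :
    ContinuousOn (fun τ => (∏ a ∈ A, (X - C (z τ a))).coeff i) s := by
  classical
  induction A using Finset.induction_on generalizing i with
  | empty => simpa using continuousOn_const
  | insert b A hb ih =>
    have ih' := fun i => ih (fun a ha => hz a (Finset.mem_insert_of_mem ha)) i
    have hzb := hz b (Finset.mem_insert_self _ _)
    rcases i with _ | i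
    · have : (fun τ => (∏ a ∈ insert b A, (X - C (z τ a))).coeff 0) =
          fun τ => - (z τ b * (∏ a ∈ A, (X - C (z τ a))).coeff 0) := by
        funext τ
        rw [Finset.prod_insert hb, sub_mul, coeff_sub, coeff_C_mul]
        simp
      rw [this]
      exact (hzb.mul (ih' 0)).neg
    · have : (fun τ => (∏ a ∈ insert b A, (X - C (z τ a))).coeff (i + 1)) =
          fun τ => (∏ a ∈ A, (X - C (z τ a))).coeff i -
            z τ b * (∏ a ∈ A, (X - C (z τ a))).coeff (i + 1) := by
        funext τ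
        rw [Finset.prod_insert hb, sub_mul, coeff_sub, coeff_X_mul, coeff_C_mul]
      rw [this]
      exact (ih' i).sub (hzb.mul (ih' (i + 1)))

end Pool.Agent.Helper993.TwoN.B7d
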