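import Mathlib
import Pool.Agent.Helper993.TwoN.Defs

set_option autoImplicit false

namespace Pool.Agent.Helper993.TwoN.B7e

open Polynomial
open Pool.Agent.Helper993.TwoN

theorem real_prod (A : Finset ℕ) (σ : ℕ → ℕ) (hσ : ∀ a ∈ A, σ a ∈ A)
    (hσi : ∀ a ∈ A, ∀ b ∈ A, σ a = σ b → a = b) (z : ℕ → ℂ)
    (hz : ∀ a ∈ A, (starRingEnd ℂ) (z a) = z (σ a)) :
    ∃ F : ℝ[X], F.map (algebraMap ℝ ℂ) = ∏ a ∈ A, (X - C (z a)) ∧ F.Monic ∧
      F.natDegree = A.card := by
  have himg : A.image σ = A := by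
    apply Finset.eq_of_subset_of_card_le (Finset.image_subset_iff.2 hσ)
    rw [Finset.card_image_of_injOn (fun a ha b hb h => hσi a ha b hb h)]
  set G : ℂ[X] := ∏ a ∈ A, (X - C (z a)) with hG
  have hmap : G.map (starRingEnd ℂ) = G := by
    rw [hG, Polynomial.map_prod]
    conv_rhs => rw [← himg]
    rw [Finset.prod_image (fun a ha b hb h => hσi a ha b hb h)]
    refine Finset.prod_congr rfl fun a ha => ?_
    rw [Polynomial.map_sub, Polynomial.map_X, Polynomial.map_C, hz a ha]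
  have hGm : G.Monic := monic_prod_of_monic _ _ fun a _ => monic_X_sub_C _
  have hlift : G ∈ Polynomial.lifts (algebraMap ℝ ℂ) := by
    rw [Polynomial.lifts_iff_coeff_lifts]
    intro n
    have h1 : (starRingEnd ℂ) (G.coeff n) = G.coeff n := by
      conv_rhs => rw [← hmap]
      rw [Polynomial.coeff_map]
    obtain ⟨r, hr⟩ := Complex.conj_eq_iff_real.1 h1
    exact ⟨r, hr.symm⟩
  obtain ⟨F, hF1, hF2, hF3⟩ := Polynomial.lifts_and_natDegree_eq_and_monic hlift hGm
  refine ⟨F, hF1, hF3, ?_⟩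
  rw [hF2, hG, Polynomial.natDegree_prod_of_monic _ _ (fun a _ => monic_X_sub_C _)]
  simp

end Pool.Agent.Helper993.TwoN.B7e
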