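import Pool.Agent.Helper993.TwoN.Defs

set_option autoImplicit false

/-! Integer checkers for the numerical certificate. -/

namespace Pool.Agent.Helper993.TwoN

/-- scale of the cosine table -/
def SC : ℕ := 2 ^ 64

/-- base of the Kronecker substitution for products -/
def BB : ℕ := 2 ^ 1200

/-- half of it -/
def HB : ℕ := 2 ^ 1199

/-- `∑_{i<n} H B^i` -/
def offs (B H : ℕ) : ℕ → ℕ
  | 0 => 0
  | n + 1 => offs B H n * B + H

/-- value at `BB` of the scaled quadratic factor -/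
def quadW (c : ℤ) : ℤ := ((SC : ℤ) * (BB : ℤ) - 2 * c) * (BB : ℤ) + (SC : ℤ)

/-- value at `BB` of the scaled product -/
def prodW (ct : ℕ → ℤ) (U : List ℕ) (pm : Bool) : ℤ :=
  (U.foldr (fun a W => quadW (ct a) * W) 1) * (if pm then (BB : ℤ) * (BB : ℤ) - 1 else 1)

/-- rounded coefficients, highest first: `[q_{cnt-1}, …, q_0]` prepended to `acc`. -/
def digsRev (k : ℕ) : ℕ → ℕ → List ℤ → List ℤ
  | 0, _, acc => acc
  | cnt + 1, n, acc =>
    digsRev k cnt (n / BB) (((((n % BB) / 2 ^ k : ℕ) : ℤ) - ((HB / 2 ^ k : ℕ) : ℤ)) :: acc)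

/-- rounded coefficients (scale `2^40`), highest first, of the product of `len` quadratics -/
def coefR (deg len : ℕ) (W : ℤ) : List ℤ :=
  digsRev (64 * len - 40) (deg + 1) (W + (offs BB HB (deg + 1) : ℤ)).toNat []

/-- error bound of the rounded coefficients -/
def EE : ℕ := 73730

/-- sum of absolute values -/
def sumAbs : List ℤ → ℕ
  | [] => 0
  | q :: qs => q.natAbs + sumAbs qs

/-- bound for the perturbation of the coefficients, scale `2^40` -/
def DQ (l : List ℤ) : ℕ := 11 * (sumAbs l + 37 * EE) / 100000 + 1 + EE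

/-- bound for the perturbation of the top coefficient, scale `2^40` -/
def DB : ℕ := 2 ^ 40 / 10000 + 1 + EE

/-- the Horner recursion with error bounds -/
def hloop (b : ℤ) (dq : ℕ) : List ℤ → ℤ → ℕ → Bool
  | q :: q' :: qs, h, dh =>
    let h' := (b * h) / (2 ^ 40 : ℕ) + q
    let dh' := ((b.natAbs + DB) * dh + DB * h.natAbs) / 2 ^ 40 + dq + 3
    Nat.blt dh' h'.natAbs && hloop b dq (q' :: qs) h' dh'
  | _, _, _ => true

/-- niceness check for the factor of degree 36; the list is `[q_36, …, q_0]` -/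
def nice1L (l : List ℤ) : Bool :=
  match l with
  | _ :: q35 :: _ :: qs => Nat.blt DB q35.natAbs && hloop (-q35) (DQ l) qs 0 0
  | _ => false

/-- niceness check for the factor of degree 34; the list is `[q_34, …, q_0]` -/
def nice2L (l : List ℤ) : Bool :=
  match l with
  | _ :: q33 :: qs => Nat.blt DB q33.natAbs && hloop (-q33) (DQ l) qs 0 0
  | _ => false

/-- the list of the complement -/
def compL (e : ℕ) (U : List ℕ) : List ℕ :=
  (List.range 70).filter (fun a => Nat.blt 0 a && Nat.beq (a % 2) e && !(U.elem a))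

/-- strictly increasing -/
def incr : List ℕ → Bool
  | a :: b :: l => Nat.blt a b && incr (b :: l)
  | _ => true

/-- validity check -/
def validL (e : ℕ) (U : List ℕ) (pm : Bool) : Bool :=
  Nat.blt e 2 && U.all (fun a => Nat.blt 0 a && Nat.blt a 70 && Nat.beq (a % 2) e) && incr U &&
    Nat.beq (U.length + (if pm then 1 else 0)) 18 && (!pm || Nat.beq e 0)

/-- full niceness check of a set -/
def niceCheck (ct : ℕ → ℤ) (e : ℕ) (U : List ℕ) (pm : Bool) : Bool :=
  nice1L (coefR 36 U.length (prodW ct U pm)) &&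
  nice2L (coefR 34 (compL e U).length (prodW ct (compL e U) (cpm e pm)))

/-! ### Rows -/

/-- base of the packing of the rows -/
def B2 : ℕ := 2 ^ 192

/-- half of it -/
def H2 : ℕ := 2 ^ 191

/-- integer approximation of `2^64 sg m` -/
def gI (ct : ℕ → ℤ) (U : List ℕ) (pm : Bool) (m : ℕ) : ℤ :=
  2 * (U.foldr (fun a s => ct (m * a) + s) 0) +
    (if pm then (if m % 2 = 0 then 2 * (SC : ℤ) else 0) else 0)

/-- integer approximation of `-70 * 2^128 * Lc j` -/
def RI (ct : ℕ → ℤ) (U : List ℕ) (pm : Bool) (j : ℕ) : ℤ :=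
  gI ct U pm 1 * gI ct U pm (j - 1) - (SC : ℤ) * gI ct U pm (if j = 1 then 1 else j - 2)

/-- integer approximation of `2^129 * eta` -/
def etaI (ct : ℕ → ℤ) (U : List ℕ) (pm : Bool) : ℤ :=
  gI ct U pm 1 * gI ct U pm 1 - (SC : ℤ) * gI ct U pm 2

/-- `∑_{m<n} ct (m a) B2^m` -/
def packT (ct : ℕ → ℤ) (a : ℕ) : ℕ → ℤ
  | 0 => 0
  | n + 1 => packT ct a n + ct (n * a) * ((B2 ^ n : ℕ) : ℤ)

/-- `∑_{m<n, m even} B2^m` -/
def packE : ℕ → ℤ
  | 0 => 0
  | n + 1 => packE n + (if n % 2 = 0 then ((B2 ^ n : ℕ) : ℤ) else 0)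

/-- packed row, without sign: `∑_{j<69} RI (j+1) B2^j`; `TL a = packT ct a 69`. -/
def rowW (ct TL : ℕ → ℤ) (U : List ℕ) (pm : Bool) : ℤ :=
  let P := 2 * (U.foldr (fun a s => TL a + s) 0) + (if pm then 2 * (SC : ℤ) * packE 69 else 0)
  gI ct U pm 1 * P - (SC : ℤ) * (gI ct U pm 1 + (B2 : ℤ) * (P - gI ct U pm 68 * ((B2 ^ 68 : ℕ) : ℤ)))

/-- upper bound constant for `2^129 * 1e-7` plus the error of `etaI` -/
def CST : ℕ := 2 ^ 129 / 10 ^ 7 + 1 + 2 ^ 73

/-- packed row with the sign of `eta`, and the bound for `2^129 * (|eta| + 1e-7)` -/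
def rowS (ct TL : ℕ → ℤ) (U : List ℕ) (pm : Bool) : ℤ × ℕ :=
  if 0 < etaI ct U pm then (rowW ct TL U pm, (etaI ct U pm).natAbs + CST)
  else (-rowW ct TL U pm, (etaI ct U pm).natAbs + CST)

/-- linear combination of the packed rows -/
def combV : List (ℤ × ℕ) → ℕ → ℤ
  | [], _ => 0
  | r :: rs, n => ((n % 2 ^ 32 : ℕ) : ℤ) * r.1 + combV rs (n / 2 ^ 32)

/-- linear combination of the bounds -/
def combH : List (ℤ × ℕ) → ℕ → ℕ
  | [], _ => 0
  | r :: rs, n => (n % 2 ^ 32) * r.2 + combH rs (n / 2 ^ 32)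

/-- sum of the coefficients -/
def combS : List (ℤ × ℕ) → ℕ → ℕ
  | [], _ => 0
  | _ :: rs, n => (n % 2 ^ 32) + combS rs (n / 2 ^ 32)

/-- `10^5 * bd j` -/
def bdI (j : ℕ) : ℕ := if j = 3 then 4 else 1

/-- `∑_{i<cnt} bdI (j+i) * |digit_i - H2|` -/
def absSum : ℕ → ℕ → ℕ → ℕ
  | 0, _, _ => 0
  | cnt + 1, n, j => bdI j * ((n % B2 - H2) + (H2 - n % B2)) + absSum cnt (n / B2) (j + 1)

/-- the check of one vertex of the dual certificate -/
def lpCheck (rows : List (ℤ × ℕ)) (j0 : ℕ) (pos : Bool) (n : ℕ) : Bool :=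
  let N := (combV rows n + (offs B2 H2 69 : ℤ)).toNat
  let d := N / B2 ^ (j0 - 1) % B2
  let x := if pos then d - H2 else H2 - d
  Nat.blt (2 * absSum 69 N 1 + 144 * combS rows n * 2 ^ 76 + 7000000 * combH rows n)
    (4 * bdI j0 * x)

end Pool.Agent.Helper993.TwoN
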