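import Mathlib
import Pool.Agent.Helper993.TwoN.Defs
import Pool.Agent.Helper993.TwoN.CertDefs

set_option autoImplicit false
/-! Irreducible 2n conjecture: definitions for the counterexample of order 69. -/

namespace Pool.Agent.Helper993.TwoN.C2c

open Polynomial
open Pool.Agent.Helper993.TwoN

theorem c2c_packT (ct : ℕ → ℤ) (a n : ℕ) :
    packT ct a n = ∑ m ∈ Finset.range n, ct (m * a) * (B2 : ℤ) ^ m := by
  induction n with
  | zero => simp [packT]
  | succ n ih => rw [packT, ih, Finset.sum_range_succ, Nat.cast_pow]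

theorem c2c_packE (n : ℕ) :
    packE n = ∑ m ∈ Finset.range n, if m % 2 = 0 then (B2 : ℤ) ^ m else 0 := by
  induction n with
  | zero => simp [packE]
  | succ n ih => rw [packE, ih, Finset.sum_range_succ, Nat.cast_pow]

theorem c2c_foldr (ct TL : ℕ → ℤ) (hTL : ∀ a, a < 70 → TL a = packT ct a 69) (U : List ℕ)
    (hU : ∀ a ∈ U, a < 70) :
    U.foldr (fun a s => TL a + s) 0 =
      ∑ m ∈ Finset.range 69, (U.foldr (fun a s => ct (m * a) + s) 0) * (B2 : ℤ) ^ m := by
  induction U with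
  | nil => simp
  | cons a U ih =>
    simp only [List.foldr_cons]
    rw [ih (fun b hb => hU b (List.mem_cons_of_mem _ hb)), hTL a (hU a List.mem_cons_self),
      c2c_packT, ← Finset.sum_add_distrib]
    exact Finset.sum_congr rfl fun m _ => by ring

theorem c2c_P (ct TL : ℕ → ℤ) (hTL : ∀ a, a < 70 → TL a = packT ct a 69) (U : List ℕ)
    (hU : ∀ a ∈ U, a < 70) (pm : Bool) :
    2 * (U.foldr (fun a s => TL a + s) 0) + (if pm then 2 * (SC : ℤ) * packE 69 else 0) =
      ∑ m ∈ Finset.range 69, gI ct U pm m * (B2 : ℤ) ^ m := by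
  rw [c2c_foldr ct TL hTL U hU, c2c_packE]
  cases pm
  · simp only [gI, Bool.false_eq_true, if_false, add_zero, Finset.mul_sum]
    exact Finset.sum_congr rfl fun m _ => by ring
  · simp only [gI, if_true, Finset.mul_sum]
    rw [← Finset.sum_add_distrib]
    refine Finset.sum_congr rfl fun m _ => ?_
    split_ifs <;> ring

theorem rowW_sound (ct TL : ℕ → ℤ) (hTL : ∀ a, a < 70 → TL a = packT ct a 69) (U : List ℕ)
    (hU : ∀ a ∈ U, a < 70) (pm : Bool) :
    rowW ct TL U pm = ∑ j ∈ Finset.range 69, RI ct U pm (j + 1) * (B2 : ℤ) ^ j := by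
  have hP := c2c_P ct TL hTL U hU pm
  simp only [rowW]
  rw [hP]
  have h1 : ∀ j, RI ct U pm (j + 1) * (B2 : ℤ) ^ j = gI ct U pm 1 * (gI ct U pm j * (B2 : ℤ) ^ j) -
      (SC : ℤ) * (gI ct U pm (if j + 1 = 1 then 1 else j + 1 - 2) * (B2 : ℤ) ^ j) := by
    intro j
    simp only [RI, Nat.add_sub_cancel]
    ring
  rw [Finset.sum_congr rfl fun j _ => h1 j, Finset.sum_sub_distrib, ← Finset.mul_sum, ← Finset.mul_sum]
  congr 2
  rw [Finset.sum_range_succ' (fun j => gI ct U pm (if j + 1 = 1 then 1 else j + 1 - 2) * (B2 : ℤ) ^ j) 68,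
    Finset.sum_range_succ (fun m => gI ct U pm m * (B2 : ℤ) ^ m) 68, Nat.cast_pow, add_sub_cancel_right,
    Finset.mul_sum]
  have h2 : ∀ j, (if j + 1 + 1 = 1 then 1 else j + 1 + 1 - 2) = j := by
    intro j
    rw [if_neg (by omega)]
    omega
  simp only [h2]
  rw [add_comm]
  congr 1
  · exact Finset.sum_congr rfl fun m _ => by ring
  · simp

end Pool.Agent.Helper993.TwoN.C2c
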