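import Mathlib
import Pool.Agent.Helper993.TwoN.Defs
import Pool.Agent.Helper993.TwoN.CertDefs

set_option autoImplicit false
/-! Irreducible 2n conjecture: definitions for the counterexample of order 69. -/

namespace Pool.Agent.Helper993.TwoN.C3a

open Polynomial
open Pool.Agent.Helper993.TwoN

section C3a

noncomputable def qz (c : ℤ) : ℤ[X] := C (SC : ℤ) * X ^ 2 - C (2 * c) * X + C (SC : ℤ)

noncomputable def GZ (ct : ℕ → ℤ) (U : List ℕ) : ℤ[X] := (U.map (fun a => qz (ct a))).prod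

noncomputable def qr (c : ℝ) : ℝ[X] := C ((2:ℝ) ^ 64) * X ^ 2 - C (2 * c) * X + C ((2:ℝ) ^ 64)

noncomputable def GRl (ct : ℕ → ℤ) (U : List ℕ) : ℝ[X] := (U.map (fun a => qr (ct a : ℝ))).prod

noncomputable def RRl (U : List ℕ) : ℝ[X] :=
  (U.map (fun a => (X ^ 2 - C (2 * cs a) * X + 1 : ℝ[X]))).prod

theorem SC_real : (((SC : ℕ) : ℤ) : ℝ) = 2 ^ 64 := by
  unfold SC
  norm_num

attribute [local irreducible] BB HB

theorem qz_map (c : ℤ) : (qz c).map (Int.castRingHom ℝ) = qr (c : ℝ) := by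
  unfold qz qr
  rw [Polynomial.map_add, Polynomial.map_sub, Polynomial.map_mul, Polynomial.map_mul,
    Polynomial.map_C, Polynomial.map_C, Polynomial.map_pow, Polynomial.map_X]
  have h1 : (Int.castRingHom ℝ) (SC : ℤ) = 2 ^ 64 := SC_real
  have h2 : (Int.castRingHom ℝ) (2 * c) = 2 * (c : ℝ) := by
    simp
  rw [h1, h2]

theorem GZ_map (ct : ℕ → ℤ) (U : List ℕ) : (GZ ct U).map (Int.castRingHom ℝ) = GRl ct U := by
  induction U with
  | nil => simp [GZ, GRl]
  | cons a U ih =>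
    have h1 : GZ ct (a :: U) = qz (ct a) * GZ ct U := by simp [GZ]
    have h2 : GRl ct (a :: U) = qr (ct a) * GRl ct U := by simp [GRl]
    rw [h1, h2, Polynomial.map_mul, ih, qz_map]

theorem qz_eval (c : ℤ) : (qz c).eval (BB : ℤ) = quadW c := by
  unfold qz quadW
  rw [eval_add, eval_sub, eval_mul, eval_mul, eval_C, eval_C, eval_pow, eval_X]
  ring

theorem GZ_eval (ct : ℕ → ℤ) (U : List ℕ) :
    U.foldr (fun a W => quadW (ct a) * W) 1 = (GZ ct U).eval (BB : ℤ) := by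
  induction U with
  | nil => simp [GZ]
  | cons a U ih =>
    have h1 : GZ ct (a :: U) = qz (ct a) * GZ ct U := by simp [GZ]
    rw [List.foldr_cons, ih, h1, eval_mul, qz_eval]

theorem prodW_eval (ct : ℕ → ℤ) (U : List ℕ) (pm : Bool) :
    prodW ct U pm = (GZ ct U * (if pm then X ^ 2 - 1 else 1)).eval (BB : ℤ) := by
  unfold prodW
  rw [GZ_eval, eval_mul]
  congr 1
  cases pm
  · simp
  · simp only [if_true]
    rw [eval_sub, eval_pow, eval_X, eval_one]
    ring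

theorem qz_deg (c : ℤ) : (qz c).natDegree ≤ 2 := by
  unfold qz
  compute_degree

theorem GZ_deg (ct : ℕ → ℤ) (U : List ℕ) : (GZ ct U).natDegree ≤ 2 * U.length := by
  induction U with
  | nil => simp [GZ]
  | cons a U ih =>
    have h1 : GZ ct (a :: U) = qz (ct a) * GZ ct U := by simp [GZ]
    rw [h1, List.length_cons]
    refine natDegree_mul_le.trans ?_
    have := qz_deg (ct a)
    omega

theorem RRl_deg (U : List ℕ) : (RRl U).natDegree ≤ 2 * U.length := by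
  induction U with
  | nil => simp [RRl]
  | cons a U ih =>
    have h1 : RRl (a :: U) = (X ^ 2 - C (2 * cs a) * X + 1) * RRl U := by simp [RRl]
    rw [h1, List.length_cons]
    refine natDegree_mul_le.trans ?_
    have : (X ^ 2 - C (2 * cs a) * X + 1 : ℝ[X]).natDegree ≤ 2 := by compute_degree
    omega

theorem quad_bd (a b c : ℝ) (H : ℝ[X]) (M : ℝ) (hM : ∀ i, |H.coeff i| ≤ M) (i : ℕ) :
    |((C a * X ^ 2 - C b * X + C c) * H).coeff i| ≤ (|a| + |b| + |c|) * M := by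
  have hM0 : 0 ≤ M := (abs_nonneg _).trans (hM 0)
  have e : ((C a * X ^ 2 - C b * X + C c) * H) =
      C a * (X ^ 2 * H) - C b * (X ^ 1 * H) + C c * H := by ring
  rw [e, coeff_add, coeff_sub, coeff_C_mul, coeff_C_mul, coeff_C_mul, coeff_X_pow_mul',
    coeff_X_pow_mul']
  have h2 : |if 2 ≤ i then H.coeff (i - 2) else 0| ≤ M := by
    split_ifs
    · exact hM _
    · simpa using hM0
  have h1 : |if 1 ≤ i then H.coeff (i - 1) else 0| ≤ M := by
    split_ifs
    · exact hM _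
    · simpa using hM0
  have h0 := hM i
  generalize (if 2 ≤ i then H.coeff (i - 2) else 0) = x2 at h2 ⊢
  generalize (if 1 ≤ i then H.coeff (i - 1) else 0) = x1 at h1 ⊢
  generalize H.coeff i = x0 at h0 ⊢
  calc |a * x2 - b * x1 + c * x0| ≤ |a * x2 - b * x1| + |c * x0| := abs_add_le _ _
    _ ≤ |a * x2| + |b * x1| + |c * x0| := by
        have := abs_sub (a * x2) (b * x1)
        linarith
    _ = |a| * |x2| + |b| * |x1| + |c| * |x0| := by rw [abs_mul, abs_mul, abs_mul]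
    _ ≤ |a| * M + |b| * M + |c| * M := by
        have e1 := mul_le_mul_of_nonneg_left h2 (abs_nonneg a)
        have e2 := mul_le_mul_of_nonneg_left h1 (abs_nonneg b)
        have e3 := mul_le_mul_of_nonneg_left h0 (abs_nonneg c)
        linarith
    _ = _ := by ring

theorem lin_bd (b : ℝ) (H : ℝ[X]) (M : ℝ) (hM : ∀ i, |H.coeff i| ≤ M) (i : ℕ) :
    |(C b * X * H).coeff i| ≤ |b| * M := by
  have h := quad_bd 0 (-b) 0 H M hM i
  have e : (C (0:ℝ) * X ^ 2 - C (-b) * X + C 0) * H = C b * X * H := by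
    rw [C_neg, C_0]
    ring
  rw [e] at h
  simpa using h

theorem one_coeff_bd (i : ℕ) : |(1 : ℝ[X]).coeff i| ≤ 1 := by
  rw [coeff_one]
  split_ifs <;> simp

theorem GRl_bd (ct : ℕ → ℤ) (hcb : ∀ m, |ct m| ≤ 2 ^ 64) (U : List ℕ) (i : ℕ) :
    |(GRl ct U).coeff i| ≤ (4 * 2 ^ 64 : ℝ) ^ U.length := by
  induction U generalizing i with
  | nil => simpa [GRl] using one_coeff_bd i
  | cons a U ih =>
    have h2 : GRl ct (a :: U) = qr (ct a) * GRl ct U := by simp [GRl]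
    rw [h2, List.length_cons, pow_succ (4 * 2 ^ 64 : ℝ), mul_comm (_ ^ _) (4 * 2 ^ 64 : ℝ)]
    unfold qr
    refine (quad_bd _ _ _ _ _ ih i).trans ?_
    apply mul_le_mul_of_nonneg_right _ (by positivity)
    have h3 : |((ct a : ℤ) : ℝ)| ≤ 2 ^ 64 := by exact_mod_cast hcb a
    rw [abs_mul, abs_of_pos (by positivity : (0:ℝ) < 2 ^ 64), abs_two]
    linarith

theorem RRl_bd (U : List ℕ) (i : ℕ) : |(RRl U).coeff i| ≤ (4 : ℝ) ^ U.length := by
  induction U generalizing i with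
  | nil => simpa [RRl] using one_coeff_bd i
  | cons a U ih =>
    have h1 : RRl (a :: U) = (C 1 * X ^ 2 - C (2 * cs a) * X + C 1) * RRl U := by simp [RRl]
    rw [h1, List.length_cons, pow_succ (4 : ℝ), mul_comm (_ ^ _) (4 : ℝ)]
    refine (quad_bd _ _ _ _ _ ih i).trans ?_
    apply mul_le_mul_of_nonneg_right _ (by positivity)
    have h3 : |cs a| ≤ 1 := Real.abs_cos_le_one _
    rw [abs_mul, abs_one, abs_two]
    linarith

theorem err_bd (ct : ℕ → ℤ) (hct : ∀ m, |((ct m : ℤ) : ℝ) - 2 ^ 64 * cs m| ≤ 2)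
    (hcb : ∀ m, |ct m| ≤ 2 ^ 64) (U : List ℕ) (i : ℕ) :
    |(GRl ct U - C (((2:ℝ) ^ 64) ^ U.length) * RRl U).coeff i| ≤
      U.length * (4 * 2 ^ 64 : ℝ) ^ U.length / 2 ^ 64 := by
  induction U generalizing i with
  | nil => simp [GRl, RRl]
  | cons a U ih =>
    have h2 : GRl ct (a :: U) = qr (ct a) * GRl ct U := by simp [GRl]
    have h1 : RRl (a :: U) = (X ^ 2 - C (2 * cs a) * X + 1) * RRl U := by simp [RRl]
    have e : GRl ct (a :: U) - C (((2:ℝ) ^ 64) ^ (a :: U).length) * RRl (a :: U) =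
        (C ((2:ℝ) ^ 64) * X ^ 2 - C (2 * (ct a : ℝ)) * X + C ((2:ℝ) ^ 64)) *
          (GRl ct U - C (((2:ℝ) ^ 64) ^ U.length) * RRl U) +
        C (-2 * ((ct a : ℝ) - 2 ^ 64 * cs a)) * X * (C (((2:ℝ) ^ 64) ^ U.length) * RRl U) := by
      rw [h2, h1, List.length_cons]
      unfold qr
      generalize (2:ℝ) ^ 64 = s
      have e1 : C (s ^ (U.length + 1)) = C s * C (s ^ U.length) := by
        rw [pow_succ, mul_comm, C_mul]
      have e2 : C (-2 * ((ct a : ℝ) - s * cs a)) = -(C (2 * (ct a : ℝ))) + C s * C (2 * cs a) := by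
        rw [← C_mul, ← C_neg, ← C_add]
        congr 1
        ring
      rw [e1, e2]
      ring
    rw [e, coeff_add]
    have b1 := quad_bd ((2:ℝ) ^ 64) (2 * (ct a : ℝ)) ((2:ℝ) ^ 64) _ _ ih i
    have b2 := lin_bd (-2 * ((ct a : ℝ) - 2 ^ 64 * cs a))
      (C (((2:ℝ) ^ 64) ^ U.length) * RRl U) (((2:ℝ) ^ 64) ^ U.length * 4 ^ U.length) (by
        intro i
        rw [coeff_C_mul, abs_mul, abs_of_pos (by positivity : (0:ℝ) < ((2:ℝ) ^ 64) ^ U.length)]
        exact mul_le_mul_of_nonneg_left (RRl_bd U i) (by positivity)) i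
    have h3 : |((ct a : ℤ) : ℝ)| ≤ 2 ^ 64 := by exact_mod_cast hcb a
    have c1 : |(2:ℝ) ^ 64| + |2 * (ct a : ℝ)| + |(2:ℝ) ^ 64| ≤ 4 * 2 ^ 64 := by
      rw [abs_mul, abs_of_pos (by positivity : (0:ℝ) < 2 ^ 64), abs_two]
      linarith
    have c2 : |-2 * ((ct a : ℝ) - 2 ^ 64 * cs a)| ≤ 4 := by
      rw [abs_mul, abs_neg, abs_two]
      linarith [hct a]
    have d1 : (|(2:ℝ) ^ 64| + |2 * (ct a : ℝ)| + |(2:ℝ) ^ 64|) *
        (U.length * (4 * 2 ^ 64 : ℝ) ^ U.length / 2 ^ 64) ≤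
        4 * 2 ^ 64 * (U.length * (4 * 2 ^ 64 : ℝ) ^ U.length / 2 ^ 64) :=
      mul_le_mul_of_nonneg_right c1 (by positivity)
    have d2 : |-2 * ((ct a : ℝ) - 2 ^ 64 * cs a)| * (((2:ℝ) ^ 64) ^ U.length * 4 ^ U.length) ≤
        4 * (((2:ℝ) ^ 64) ^ U.length * 4 ^ U.length) :=
      mul_le_mul_of_nonneg_right c2 (by positivity)
    have f1 : 4 * 2 ^ 64 * (U.length * (4 * 2 ^ 64 : ℝ) ^ U.length / 2 ^ 64) +
        4 * (((2:ℝ) ^ 64) ^ U.length * 4 ^ U.length) =
        ((a :: U).length : ℝ) * (4 * 2 ^ 64 : ℝ) ^ (a :: U).length / 2 ^ 64 := by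
      rw [List.length_cons, pow_succ (4 * 2 ^ 64 : ℝ)]
      generalize U.length = m
      have hs : (2:ℝ) ^ 64 ≠ 0 := by positivity
      generalize (2:ℝ) ^ 64 = s at hs ⊢
      rw [mul_pow 4 s m]
      push_cast
      field_simp
    calc _ ≤ _ := abs_add_le _ _
      _ ≤ _ := add_le_add (b1.trans d1) (b2.trans d2)
      _ = _ := f1

theorem pm_bd (H : ℝ[X]) (M : ℝ) (hM : ∀ i, |H.coeff i| ≤ M) (pm : Bool) (i : ℕ) :
    |(H * (if pm then X ^ 2 - 1 else 1)).coeff i| ≤ (if pm then 2 else 1) * M := by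
  cases pm
  · simpa using hM i
  · have h := quad_bd 1 0 (-1) H M hM i
    have e : (C (1:ℝ) * X ^ 2 - C 0 * X + C (-1)) * H = H * (X ^ 2 - 1) := by
      rw [C_neg, C_0, C_1]
      ring
    rw [e] at h
    simp only [if_true]
    refine h.trans (le_of_eq ?_)
    rw [abs_one, abs_zero, abs_neg, abs_one]
    ring

theorem floor_bd (g : ℤ) (k : ℕ) :
    |((g / 2 ^ k : ℤ) : ℝ) - (g : ℝ) / 2 ^ k| ≤ 1 := by
  have hk : (0:ℤ) < 2 ^ k := by positivity
  have hkr : (0:ℝ) < 2 ^ k := by positivity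
  have h1 : (g / 2 ^ k) * 2 ^ k ≤ g := Int.ediv_mul_le g hk.ne'
  have h2 : g < (g / 2 ^ k + 1) * 2 ^ k := Int.lt_ediv_add_one_mul_self g hk
  have h1r : ((g / 2 ^ k : ℤ) : ℝ) * 2 ^ k ≤ g := by exact_mod_cast h1
  have h2r : (g : ℝ) < (((g / 2 ^ k : ℤ) : ℝ) + 1) * 2 ^ k := by exact_mod_cast h2
  rw [abs_le]
  constructor
  · rw [neg_le_sub_iff_le_add, div_le_iff₀ hkr]
    linarith
  · rw [sub_le_iff_le_add, ← sub_le_iff_le_add', le_div_iff₀ hkr]
    nlinarith

theorem coefR_sound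
    (digsRev_eq : ∀ (k cnt n : ℕ) (acc : List ℤ), digsRev k cnt n acc =
      (List.range cnt).reverse.map
      (fun i => (((n / BB ^ i % BB / 2 ^ k : ℕ) : ℤ) - ((HB / 2 ^ k : ℕ) : ℤ))) ++ acc)
    (digit_sound : ∀ (B H n : ℕ), B = 2 * H → 0 < H → ∀ (v : ℕ → ℤ),
      (∀ j, j < n → |v j| < H) → ∀ (j : ℕ), j < n →
      (((((∑ i ∈ Finset.range n, v i * (B : ℤ) ^ i) + (offs B H n : ℤ)).toNat / B ^ j % B : ℕ)) : ℤ)
      = v j + H)
    (ct : ℕ → ℤ) (hct : ∀ m, |((ct m : ℤ) : ℝ) - 2 ^ 64 * cs m| ≤ 2) (hcb : ∀ m, |ct m| ≤ 2 ^ 64)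
    (U : List ℕ) (hn : U.Nodup) (pm : Bool) (deg : ℕ)
    (hd : deg = 2 * U.length + (if pm then 2 else 0)) (h1 : 1 ≤ U.length) (h36 : deg ≤ 36) :
    ∃ q : ℕ → ℤ, coefR deg U.length (prodW ct U pm) = (List.range (deg + 1)).reverse.map q ∧
      (∀ i, i ≤ deg → |((q i : ℤ) : ℝ) - 2 ^ 40 * (FU U.toFinset pm).coeff i| ≤ 73729) ∧
      (∀ i, deg < i → (FU U.toFinset pm).coeff i = 0) := by
  have hn18 : U.length ≤ 18 := by
    cases pm <;> simp at hd <;> omega
  have hn17 : pm = true → U.length ≤ 17 := by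
    intro h
    rw [h] at hd
    simp at hd
    omega
  have hdegG : (GZ ct U * (if pm then X ^ 2 - 1 else 1)).natDegree ≤ deg := by
    rw [hd]
    refine natDegree_mul_le.trans (add_le_add (GZ_deg ct U) ?_)
    cases pm
    · simp
    · simp only [if_true]
      compute_degree
  have hFU : FU U.toFinset pm = RRl U * (if pm then X ^ 2 - 1 else 1) := by
    unfold FU RRl
    rw [List.prod_toFinset _ hn]
  have hdegF : (FU U.toFinset pm).natDegree ≤ deg := by
    rw [hFU, hd]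
    refine natDegree_mul_le.trans (add_le_add (RRl_deg U) ?_)
    cases pm
    · simp
    · simp only [if_true]
      compute_degree
  set G : ℤ[X] := GZ ct U * (if pm then X ^ 2 - 1 else 1) with hG
  have hGr : ∀ i, ((G.coeff i : ℤ) : ℝ) = (GRl ct U * (if pm then X ^ 2 - 1 else 1)).coeff i := by
    intro i
    have h1 : G.map (Int.castRingHom ℝ) = GRl ct U * (if pm then X ^ 2 - 1 else 1) := by
      rw [hG, Polynomial.map_mul, GZ_map]
      congr 1
      cases pm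
      · simp
      · simp
    rw [← h1, coeff_map]
    rfl
  have hf2 : (if pm then (2:ℝ) else 1) ≤ 2 := by split_ifs <;> norm_num
  have hf0 : (0:ℝ) ≤ (if pm then (2:ℝ) else 1) := by split_ifs <;> norm_num
  have hb : ∀ i, |((G.coeff i : ℤ) : ℝ)| ≤
      (if pm then 2 else 1) * (4 * 2 ^ 64 : ℝ) ^ U.length := by
    intro i
    rw [hGr]
    exact pm_bd _ _ (GRl_bd ct hcb U) pm i
  have he : ∀ i, |((G.coeff i : ℤ) : ℝ) - ((2:ℝ) ^ 64) ^ U.length * (FU U.toFinset pm).coeff i| ≤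
      (if pm then 2 else 1) * (U.length * (4 * 2 ^ 64 : ℝ) ^ U.length / 2 ^ 64) := by
    intro i
    have h1 := pm_bd _ _ (err_bd ct hct hcb U) pm i
    have e : (GRl ct U - C (((2:ℝ) ^ 64) ^ U.length) * RRl U) *
        (if pm then X ^ 2 - 1 else 1) =
        GRl ct U * (if pm then X ^ 2 - 1 else 1) -
          C (((2:ℝ) ^ 64) ^ U.length) * FU U.toFinset pm := by
      rw [hFU]
      ring
    rw [e, coeff_sub, coeff_C_mul, ← hGr] at h1
    exact h1
  have hHBr : ((HB : ℕ) : ℝ) = 2 ^ 1199 := by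
    unfold HB
    rw [Nat.cast_pow]
    rfl
  have hHB : ∀ i, |G.coeff i| < (HB : ℤ) := by
    intro i
    have h1 : |((G.coeff i : ℤ) : ℝ)| < ((HB : ℕ) : ℝ) := by
      refine (hb i).trans_lt ?_
      have e1 : (4 * 2 ^ 64 : ℝ) ^ U.length = 2 ^ (66 * U.length) := by
        rw [pow_mul]
        congr 1
        norm_num
      rw [e1, hHBr]
      calc (if pm then (2:ℝ) else 1) * 2 ^ (66 * U.length) ≤ 2 * 2 ^ (66 * U.length) :=
            mul_le_mul_of_nonneg_right hf2 (by positivity)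
        _ = 2 ^ (66 * U.length + 1) := by rw [pow_succ]; ring
        _ < 2 ^ 1199 := pow_lt_pow_right₀ (by norm_num) (by omega)
    have h2 : ((|G.coeff i| : ℤ) : ℝ) < (((HB : ℕ) : ℤ) : ℝ) := by
      rw [Int.cast_abs, Int.cast_natCast]
      exact h1
    exact Int.cast_lt.1 h2
  have hW : prodW ct U pm = ∑ i ∈ Finset.range (deg + 1), G.coeff i * (BB : ℤ) ^ i := by
    rw [prodW_eval, eval_eq_sum_range' (Nat.lt_succ_of_le hdegG)]
  have hBH : BB = 2 * HB := by
    unfold BB HB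
    rw [← pow_succ']
  have hHBpos : 0 < HB := by
    unfold HB
    exact Nat.pow_pos two_pos
  have hdig : ∀ j, j < deg + 1 →
      ((((prodW ct U pm + (offs BB HB (deg + 1) : ℤ)).toNat / BB ^ j % BB : ℕ)) : ℤ)
        = G.coeff j + HB := by
    intro j hj
    rw [hW]
    exact digit_sound BB HB (deg + 1) hBH hHBpos (fun i => G.coeff i) (fun i _ => hHB i) j hj
  refine ⟨fun i => ((((prodW ct U pm + (offs BB HB (deg + 1) : ℤ)).toNat / BB ^ i % BB /
    2 ^ (64 * U.length - 40) : ℕ) : ℤ) - ((HB / 2 ^ (64 * U.length - 40) : ℕ) : ℤ)), ?_, ?_, ?_⟩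
  · unfold coefR
    rw [digsRev_eq, List.append_nil]
  · intro i hi
    have hk : 64 * U.length - 40 + 40 = 64 * U.length := by omega
    have hk2 : 64 * U.length - 40 ≤ 1199 := by omega
    generalize hkk : 64 * U.length - 40 = k at hk hk2 ⊢
    have hq : ((((prodW ct U pm + (offs BB HB (deg + 1) : ℤ)).toNat / BB ^ i % BB /
        2 ^ k : ℕ) : ℤ) - ((HB / 2 ^ k : ℕ) : ℤ)) = G.coeff i / 2 ^ k := by
      have hHBk : HB = 2 ^ k * 2 ^ (1199 - k) := by
        have h5 : k + (1199 - k) = 1199 := by omega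
        rw [← pow_add, h5]
        unfold HB
        rfl
      have e1 : HB / 2 ^ k = 2 ^ (1199 - k) := by
        rw [hHBk, Nat.mul_div_cancel_left _ (Nat.pow_pos two_pos)]
      rw [Int.natCast_ediv, hdig i (by omega), e1, hHBk]
      push_cast
      rw [Int.add_mul_ediv_left _ _ (by positivity)]
      ring
    beta_reduce
    rw [hq]
    have h1 := floor_bd (G.coeff i) k
    have hkr : (0:ℝ) < 2 ^ k := by positivity
    have e2 : ((2:ℝ) ^ 64) ^ U.length = 2 ^ k * 2 ^ 40 := by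
      rw [← pow_mul, ← pow_add, hk]
    have h2 : |(G.coeff i : ℝ) / 2 ^ k - 2 ^ 40 * (FU U.toFinset pm).coeff i| ≤ 73728 := by
      have h3 := he i
      rw [mul_pow, e2] at h3
      have e3 : (G.coeff i : ℝ) / 2 ^ k - 2 ^ 40 * (FU U.toFinset pm).coeff i =
          ((G.coeff i : ℝ) - 2 ^ k * 2 ^ 40 * (FU U.toFinset pm).coeff i) / 2 ^ k := by
        field_simp
      rw [e3, abs_div, abs_of_pos hkr, div_le_iff₀ hkr]
      refine h3.trans ?_
      have e4 : (if pm then (2:ℝ) else 1) * (U.length * (4 ^ U.length * (2 ^ k * 2 ^ 40)) / 2 ^ 64)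
          = ((if pm then (2:ℝ) else 1) * U.length * 4 ^ U.length) / 2 ^ 24 * 2 ^ k := by
        have : (2:ℝ) ^ 64 = 2 ^ 24 * 2 ^ 40 := by norm_num
        rw [this]
        field_simp
      rw [e4]
      apply mul_le_mul_of_nonneg_right _ hkr.le
      rw [div_le_iff₀ (by positivity)]
      by_cases hpm : pm = true
      · have hl : (U.length : ℝ) ≤ 17 := by exact_mod_cast hn17 hpm
        have hp : (4:ℝ) ^ U.length ≤ 4 ^ 17 := pow_le_pow_right₀ (by norm_num) (hn17 hpm)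
        rw [if_pos hpm]
        calc (2:ℝ) * U.length * 4 ^ U.length ≤ 2 * 17 * 4 ^ 17 := by gcongr
          _ ≤ 73728 * 2 ^ 24 := by norm_num
      · have hl : (U.length : ℝ) ≤ 18 := by exact_mod_cast hn18
        have hp : (4:ℝ) ^ U.length ≤ 4 ^ 18 := pow_le_pow_right₀ (by norm_num) hn18
        rw [if_neg hpm]
        calc (1:ℝ) * U.length * 4 ^ U.length ≤ 1 * 18 * 4 ^ 18 := by gcongr
          _ ≤ 73728 * 2 ^ 24 := by norm_num
    calc |((G.coeff i / 2 ^ k : ℤ) : ℝ) - 2 ^ 40 * (FU U.toFinset pm).coeff i|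
        = |(((G.coeff i / 2 ^ k : ℤ) : ℝ) - (G.coeff i : ℝ) / 2 ^ k) +
          ((G.coeff i : ℝ) / 2 ^ k - 2 ^ 40 * (FU U.toFinset pm).coeff i)| := by
          rw [sub_add_sub_cancel]
      _ ≤ _ := abs_add_le _ _
      _ ≤ 73729 := by linarith
  · intro i hi
    exact coeff_eq_zero_of_natDegree_lt (lt_of_le_of_lt hdegF hi)

end C3a

end Pool.Agent.Helper993.TwoN.C3a
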