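import Mathlib
import Pool.Agent.Helper993.TwoN.Defs

set_option autoImplicit false
/-! Irreducible 2n conjecture: definitions for the counterexample of order 69. -/

namespace Pool.Agent.Helper993.TwoN.C5

open Polynomial
open Pool.Agent.Helper993.TwoN

lemma csA (n : ℕ) (h : n ≤ 140) : cs n = cs (140 - n) := by
  unfold cs
  rw [Nat.cast_sub h, ← Real.cos_two_pi_sub]
  congr 1
  push_cast
  ring

lemma csB (n : ℕ) (h : n ≤ 70) : cs n = -cs (70 - n) := by
  unfold cs
  rw [Nat.cast_sub h, ← Real.cos_pi_sub]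
  congr 1
  push_cast
  ring

theorem eta_zero_R (n d : ℕ) (hn : 1 < n) (hd : n * d = 140) (k : ℕ) :
    ∑ t ∈ Finset.range n, cs (k + d * t) = 0 := by
  have hprim : IsPrimitiveRoot (Complex.exp (2 * Real.pi * Complex.I / n)) n :=
    Complex.isPrimitiveRoot_exp n (by omega)
  have hs := hprim.geom_sum_eq_zero hn
  have hn0 : (n : ℂ) ≠ 0 := by
    have : n ≠ 0 := by omega
    exact_mod_cast this
  have hdc : (n : ℂ) * d = 140 := by exact_mod_cast hd
  have h2 : ∑ t ∈ Finset.range n, Complex.exp (((Real.pi * ((k + d * t : ℕ) : ℝ) / 70 : ℝ) : ℂ)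
      * Complex.I) = 0 := by
    have h1 : ∀ t : ℕ, Complex.exp (((Real.pi * ((k + d * t : ℕ) : ℝ) / 70 : ℝ) : ℂ) * Complex.I)
        = Complex.exp (((Real.pi * (k : ℝ) / 70 : ℝ) : ℂ) * Complex.I) *
          (Complex.exp (2 * Real.pi * Complex.I / n)) ^ t := by
      intro t
      rw [← Complex.exp_nat_mul, ← Complex.exp_add]
      congr 1
      have hd' : (d : ℂ) = 140 / n := by
        field_simp
        rw [mul_comm]
        exact hdc
      push_cast
      rw [hd']
      field_simp
      ring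
    simp_rw [h1, ← Finset.mul_sum, hs, mul_zero]
  have h3 := congrArg Complex.re h2
  rw [Complex.re_sum] at h3
  simp only [Complex.exp_ofReal_mul_I_re, Complex.zero_re] at h3
  exact h3

theorem eta_zero : eta ({2, 4, 8, 12, 16, 18, 22, 24, 32, 36, 38, 44, 48, 52, 58, 62, 64, 68} : Finset ℕ)
    false = 0 := by
  have e36 : cs 36 = -cs 34 := csB 36 (by norm_num)
  have e38 : cs 38 = -cs 32 := csB 38 (by norm_num)
  have e40 : cs 40 = -cs 30 := csB 40 (by norm_num)
  have e42 : cs 42 = -cs 28 := csB 42 (by norm_num)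
  have e44 : cs 44 = -cs 26 := csB 44 (by norm_num)
  have e48 : cs 48 = -cs 22 := csB 48 (by norm_num)
  have e52 : cs 52 = -cs 18 := csB 52 (by norm_num)
  have e56 : cs 56 = -cs 14 := csB 56 (by norm_num)
  have e58 : cs 58 = -cs 12 := csB 58 (by norm_num)
  have e60 : cs 60 = -cs 10 := csB 60 (by norm_num)
  have e62 : cs 62 = -cs 8 := csB 62 (by norm_num)
  have e64 : cs 64 = -cs 6 := csB 64 (by norm_num)
  have e68 : cs 68 = -cs 2 := csB 68 (by norm_num)
  have e72 : cs 72 = -cs 2 := (csA 72 (by norm_num)).trans (csB 68 (by norm_num))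
  have e76 : cs 76 = -cs 6 := (csA 76 (by norm_num)).trans (csB 64 (by norm_num))
  have e80 : cs 80 = -cs 10 := (csA 80 (by norm_num)).trans (csB 60 (by norm_num))
  have e82 : cs 82 = -cs 12 := (csA 82 (by norm_num)).trans (csB 58 (by norm_num))
  have e84 : cs 84 = -cs 14 := (csA 84 (by norm_num)).trans (csB 56 (by norm_num))
  have e86 : cs 86 = -cs 16 := (csA 86 (by norm_num)).trans (csB 54 (by norm_num))
  have e88 : cs 88 = -cs 18 := (csA 88 (by norm_num)).trans (csB 52 (by norm_num))
  have e90 : cs 90 = -cs 20 := (csA 90 (by norm_num)).trans (csB 50 (by norm_num))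
  have e96 : cs 96 = -cs 26 := (csA 96 (by norm_num)).trans (csB 44 (by norm_num))
  have e100 : cs 100 = -cs 30 := (csA 100 (by norm_num)).trans (csB 40 (by norm_num))
  have e102 : cs 102 = -cs 32 := (csA 102 (by norm_num)).trans (csB 38 (by norm_num))
  have e104 : cs 104 = -cs 34 := (csA 104 (by norm_num)).trans (csB 36 (by norm_num))
  have e112 : cs 112 = cs 28 := csA 112 (by norm_num)
  have e114 : cs 114 = cs 26 := csA 114 (by norm_num)
  have e116 : cs 116 = cs 24 := csA 116 (by norm_num)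
  have e118 : cs 118 = cs 22 := csA 118 (by norm_num)
  have e120 : cs 120 = cs 20 := csA 120 (by norm_num)
  have e122 : cs 122 = cs 18 := csA 122 (by norm_num)
  have e124 : cs 124 = cs 16 := csA 124 (by norm_num)
  have e128 : cs 128 = cs 12 := csA 128 (by norm_num)
  have e136 : cs 136 = cs 4 := csA 136 (by norm_num)
  have s1 : ∑ a ∈ ({2, 4, 8, 12, 16, 18, 22, 24, 32, 36, 38, 44, 48, 52, 58, 62, 64, 68} : Finset ℕ), cs (1 * a) =
      cs 2 + cs 4 + cs 8 + cs 12 + cs 16 + cs 18 + cs 22 + cs 24 + cs 32 + cs 36 + cs 38 + cs 44 + cs 48 + cs 52 + cs 58 + cs 62 + cs 64 + cs 68 := by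
    rw [Finset.sum_insert (by decide), Finset.sum_insert (by decide), Finset.sum_insert (by decide), Finset.sum_insert (by decide), Finset.sum_insert (by decide), Finset.sum_insert (by decide), Finset.sum_insert (by decide), Finset.sum_insert (by decide), Finset.sum_insert (by decide), Finset.sum_insert (by decide), Finset.sum_insert (by decide), Finset.sum_insert (by decide), Finset.sum_insert (by decide), Finset.sum_insert (by decide), Finset.sum_insert (by decide), Finset.sum_insert (by decide), Finset.sum_insert (by decide), Finset.sum_singleton]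
    simp only [one_mul]
    ring
  have s2 : ∑ a ∈ ({2, 4, 8, 12, 16, 18, 22, 24, 32, 36, 38, 44, 48, 52, 58, 62, 64, 68} : Finset ℕ), cs (2 * a) =
      cs 4 + cs 8 + cs 16 + cs 24 + cs 32 + cs 36 + cs 44 + cs 48 + cs 64 + cs 72 + cs 76 + cs 88 + cs 96 + cs 104 + cs 116 + cs 124 + cs 128 + cs 136 := by
    rw [Finset.sum_insert (by decide), Finset.sum_insert (by decide), Finset.sum_insert (by decide), Finset.sum_insert (by decide), Finset.sum_insert (by decide), Finset.sum_insert (by decide), Finset.sum_insert (by decide), Finset.sum_insert (by decide), Finset.sum_insert (by decide), Finset.sum_insert (by decide), Finset.sum_insert (by decide), Finset.sum_insert (by decide), Finset.sum_insert (by decide), Finset.sum_insert (by decide), Finset.sum_insert (by decide), Finset.sum_insert (by decide), Finset.sum_insert (by decide), Finset.sum_singleton]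
    simp only [Nat.reduceMul]
    ring
  have r50 : cs 0 + cs 28 + cs 56 + cs 84 + cs 112 = 0 := by
    have := eta_zero_R 5 28 (by norm_num) (by norm_num) 0
    simp only [Finset.sum_range_succ, Finset.sum_range_zero, Nat.reduceMul, Nat.reduceAdd,
      zero_add] at this
    linarith
  have r52 : cs 2 + cs 30 + cs 58 + cs 86 + cs 114 = 0 := by
    have := eta_zero_R 5 28 (by norm_num) (by norm_num) 2
    simp only [Finset.sum_range_succ, Finset.sum_range_zero, Nat.reduceMul, Nat.reduceAdd,
      zero_add] at this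
    linarith
  have r54 : cs 4 + cs 32 + cs 60 + cs 88 + cs 116 = 0 := by
    have := eta_zero_R 5 28 (by norm_num) (by norm_num) 4
    simp only [Finset.sum_range_succ, Finset.sum_range_zero, Nat.reduceMul, Nat.reduceAdd,
      zero_add] at this
    linarith
  have r56 : cs 6 + cs 34 + cs 62 + cs 90 + cs 118 = 0 := by
    have := eta_zero_R 5 28 (by norm_num) (by norm_num) 6
    simp only [Finset.sum_range_succ, Finset.sum_range_zero, Nat.reduceMul, Nat.reduceAdd,
      zero_add] at this
    linarith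
  have r70 : cs 0 + cs 20 + cs 40 + cs 60 + cs 80 + cs 100 + cs 120 = 0 := by
    have := eta_zero_R 7 20 (by norm_num) (by norm_num) 0
    simp only [Finset.sum_range_succ, Finset.sum_range_zero, Nat.reduceMul, Nat.reduceAdd,
      zero_add] at this
    linarith
  have r72 : cs 2 + cs 22 + cs 42 + cs 62 + cs 82 + cs 102 + cs 122 = 0 := by
    have := eta_zero_R 7 20 (by norm_num) (by norm_num) 2
    simp only [Finset.sum_range_succ, Finset.sum_range_zero, Nat.reduceMul, Nat.reduceAdd,
      zero_add] at this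
    linarith
  have hphi : 4 * cs 14 = 1 + Real.sqrt 5 := by
    have : cs 14 = Real.cos (Real.pi / 5) := by
      unfold cs
      congr 1
      push_cast
      ring
    rw [this, Real.cos_pi_div_five]
    ring
  have h0 : cs 0 = 1 := by simp [cs]
  have hS1 : 2 * ∑ a ∈ ({2, 4, 8, 12, 16, 18, 22, 24, 32, 36, 38, 44, 48, 52, 58, 62, 64, 68} : Finset ℕ), cs (1 * a) = 2 * cs 14 := by
    rw [s1]
    rw [e36, e38, e44, e48, e52, e58, e62, e64, e68]
    rw [e56, e84, e112] at r50
    rw [e58, e86, e114] at r52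
    rw [e60, e88, e116] at r54
    rw [e62, e90, e118] at r56
    rw [e40, e60, e80, e100, e120] at r70
    rw [e42, e62, e82, e102, e122] at r72
    linear_combination r50 - 2 * r52 + 2 * r54 - 2 * r56 - r70 + 2 * r72
  have hS2 : 2 * ∑ a ∈ ({2, 4, 8, 12, 16, 18, 22, 24, 32, 36, 38, 44, 48, 52, 58, 62, 64, 68} : Finset ℕ), cs (2 * a) = 2 * cs 14 + 1 := by
    rw [← hS1, s1, s2]
    simp only [e36, e38, e40, e42, e44, e48, e52, e56, e58, e60, e62, e64, e68, e72, e76, e80, e82, e84, e86, e88, e90, e96, e100, e102, e104, e112, e114, e116, e118, e120, e122, e124, e128, e136] at r52 r54 r56 r70 ⊢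
    rw [← h0]
    linear_combination -2 * r52 + 2 * r54 - 2 * r56 - r70
  have h5 : Real.sqrt 5 ^ 2 = 5 := Real.sq_sqrt (by norm_num)
  unfold eta sg
  rw [hS1, hS2]
  simp only [Bool.false_eq_true, if_false, add_zero]
  have h14 : cs 14 = (1 + Real.sqrt 5) / 4 := by linear_combination (1 / 4) * hphi
  rw [h14]
  linear_combination (1 / 8) * h5

theorem prod_all (e : ℕ) (U : Finset ℕ) (pm : Bool)
    (w_pow : ∀ (e a : ℕ), a ∈ PAR e → (w a) ^ 70 = (-1) ^ e)
    (w_inj : ∀ (a b : ℕ), a < 140 → b < 140 → w a = w b → a = b)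
    (FU_map : ∀ (e : ℕ) (U : Finset ℕ) (pm : Bool), U ⊆ UP e → (pm = true → e = 0) →
      (FU U pm).map (algebraMap ℝ ℂ) = ∏ a ∈ full U pm, (X - C (w a)))
    (full_union : ∀ (e : ℕ) (U : Finset ℕ) (pm : Bool), Valid e U pm →
      full U pm ⊆ PAR e ∧ full (comp e U) (cpm e pm) = PAR e \ full U pm ∧
      (full U pm).card = 36 ∧ (full (comp e U) (cpm e pm)).card = 34)
    (hV : Valid e U pm) :
    FU U pm * FU (comp e U) (cpm e pm) = X ^ 70 - C ((-1) ^ e) ∧
    (FU U pm).Monic ∧ (FU U pm).natDegree = 36 ∧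
    (FU (comp e U) (cpm e pm)).Monic ∧ (FU (comp e U) (cpm e pm)).natDegree = 34 := by
  classical
  obtain ⟨hsub, hcompl, hc1, hc2⟩ := full_union e U pm hV
  have hm1 := FU_map e U pm hV.hU hV.hp
  have hm2 := FU_map e (comp e U) (cpm e pm) Finset.sdiff_subset (by
    intro h
    simp only [cpm, Bool.and_eq_true, decide_eq_true_eq] at h
    exact h.1)
  have hinj : Function.Injective (algebraMap ℝ ℂ) := (algebraMap ℝ ℂ).injective
  have hmon1 : (FU U pm).Monic := by
    apply Polynomial.monic_of_injective hinj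
    rw [hm1]
    exact Polynomial.monic_prod_of_monic _ _ (fun a _ => Polynomial.monic_X_sub_C _)
  have hmon2 : (FU (comp e U) (cpm e pm)).Monic := by
    apply Polynomial.monic_of_injective hinj
    rw [hm2]
    exact Polynomial.monic_prod_of_monic _ _ (fun a _ => Polynomial.monic_X_sub_C _)
  have hd1 : (FU U pm).natDegree = 36 := by
    rw [← Polynomial.natDegree_map (algebraMap ℝ ℂ), hm1,
      Polynomial.natDegree_finset_prod_X_sub_C_eq_card, hc1]
  have hd2 : (FU (comp e U) (cpm e pm)).natDegree = 34 := by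
    rw [← Polynomial.natDegree_map (algebraMap ℝ ℂ), hm2,
      Polynomial.natDegree_finset_prod_X_sub_C_eq_card, hc2]
  refine ⟨?_, hmon1, hd1, hmon2, hd2⟩
  apply Polynomial.map_injective _ hinj
  have hcard : (PAR e).card = 70 := by
    have := Finset.card_sdiff_add_card_eq_card hsub
    rw [← hcompl, hc2, hc1] at this
    omega
  have hprod : (FU U pm * FU (comp e U) (cpm e pm)).map (algebraMap ℝ ℂ) =
      ∏ a ∈ PAR e, (X - C (w a)) := by
    rw [Polynomial.map_mul, hm1, hm2, hcompl, mul_comm]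
    exact Finset.prod_sdiff hsub
  rw [hprod]
  have hq : (X ^ 70 - C ((-1) ^ e) : ℝ[X]).map (algebraMap ℝ ℂ) = X ^ 70 - C ((-1 : ℂ) ^ e) := by
    simp
  rw [hq]
  have hwinj : Set.InjOn w (PAR e : Set ℕ) := by
    intro a ha b hb hab
    simp only [PAR, Finset.coe_filter, Set.mem_setOf_eq, Finset.mem_range] at ha hb
    exact w_inj a b ha.1 hb.1 hab
  have hcardi : ((PAR e).image w).card = 70 := by
    rw [Finset.card_image_of_injOn hwinj, hcard]
  have hpm : (∏ a ∈ PAR e, (X - C (w a)) : ℂ[X]).Monic :=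
    Polynomial.monic_prod_of_monic _ _ (fun a _ => Polynomial.monic_X_sub_C _)
  have hpd : (∏ a ∈ PAR e, (X - C (w a)) : ℂ[X]).natDegree = 70 := by
    rw [Polynomial.natDegree_finset_prod_X_sub_C_eq_card, hcard]
  have hxm : (X ^ 70 - C ((-1 : ℂ) ^ e) : ℂ[X]).Monic :=
    Polynomial.monic_X_pow_sub_C _ (by norm_num)
  have hxd : (X ^ 70 - C ((-1 : ℂ) ^ e) : ℂ[X]).natDegree = 70 :=
    Polynomial.natDegree_X_pow_sub_C
  have hz : (∏ a ∈ PAR e, (X - C (w a)) : ℂ[X]) - (X ^ 70 - C ((-1 : ℂ) ^ e)) = 0 := by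
    apply Polynomial.eq_zero_of_natDegree_lt_card_of_eval_eq_zero' _ ((PAR e).image w)
    · intro z hz
      obtain ⟨a, ha, rfl⟩ := Finset.mem_image.1 hz
      rw [Polynomial.eval_sub, Polynomial.eval_prod, Finset.prod_eq_zero ha (by simp)]
      simp [w_pow e a ha]
    · rw [hcardi]
      have hne : (∏ a ∈ PAR e, (X - C (w a)) : ℂ[X]) ≠ 0 := hpm.ne_zero
      have hdeg : (∏ a ∈ PAR e, (X - C (w a)) : ℂ[X]).degree
          = (X ^ 70 - C ((-1 : ℂ) ^ e) : ℂ[X]).degree := by
        rw [Polynomial.degree_eq_natDegree hne, Polynomial.degree_eq_natDegree hxm.ne_zero, hpd, hxd]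
      have hlt := Polynomial.degree_sub_lt hdeg hne (by rw [hpm.leadingCoeff, hxm.leadingCoeff])
      by_cases h0 : (∏ a ∈ PAR e, (X - C (w a)) : ℂ[X]) - (X ^ 70 - C ((-1 : ℂ) ^ e)) = 0
      · rw [h0]; simp
      · rw [Polynomial.natDegree_lt_iff_degree_lt h0]
        rw [Polynomial.degree_eq_natDegree hne, hpd] at hlt
        exact hlt
  exact sub_eq_zero.1 hz

end Pool.Agent.Helper993.TwoN.C5
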