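import Mathlib
import Pool.Agent.Helper993.TwoN.Defs
import Pool.Agent.Helper993.TwoN.Defs2

set_option autoImplicit false
/-! Irreducible 2n conjecture: definitions for the counterexample of order 69. -/

namespace Pool.Agent.Helper993.TwoN.D1

open Polynomial
open Pool.Agent.Helper993.TwoN

theorem P_congr_10303 (ρ ρ' : ℕ → ℝ) (e : ℕ) (h : ∀ j ∈ Finset.Icc 1 69, ρ j = ρ' j) :
    P ρ e = P ρ' e := by
  unfold P
  rw [Finset.sum_congr rfl (fun j hj => by rw [h j hj])]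

theorem P_coeff_zero_10303 (ρ : ℕ → ℝ) (e : ℕ) : (P ρ e).coeff 0 ≠ 0 := by
  rw [coeff_zero_eq_eval_zero]
  unfold P
  rw [eval_sub, eval_add, eval_finsetSum]
  have h : ∑ j ∈ Finset.Icc 1 69, eval 0 (C (ρ j) * X ^ (70 - j)) = 0 := by
    apply Finset.sum_eq_zero
    intro j hj
    rw [Finset.mem_Icc] at hj
    rw [eval_mul, eval_pow, eval_X, zero_pow (by omega), mul_zero]
  rw [h]
  simp

theorem main_factor
    (scale_step : ∀ (F1 F2 : ℝ[X]) (e : ℕ) (c : ℕ → ℝ) (τ : ℝ), 0 < τ →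
      F1.Monic → F1.natDegree = 36 → F2.Monic → F2.natDegree = 34 →
      F1 * F2 = P (fun j => c j * τ ^ j) e → nice1 F1 → nice2 F2 →
      ∀ (p : ℝ[X]), p.Monic → p.natDegree = 69 → (∀ j, c j = p.coeff (69 - j)) →
      ∃ (G1 G2 : ℝ[X]) (K : ℝ), G1.Monic ∧ G1.natDegree = 36 ∧ G2.Monic ∧ G2.natDegree = 34 ∧
        X * p + C K = G1 * G2 ∧ nice1 G1 ∧ nice2 G2)
    (exit_time : ∀ (c : ℕ → ℝ), (∃ j ∈ Finset.Icc 1 69, c j ≠ 0) →
      ∃ T : ℝ, 0 < T ∧ (∀ τ ∈ Set.Icc 0 T, Box (fun j => c j * τ ^ j)) ∧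
        ∃ j0 ∈ Finset.Icc 1 69, |c j0 * T ^ j0| = bd j0)
    (FU_coeff34 : ∀ (e : ℕ) (U : Finset ℕ) (pm : Bool), Valid e U pm →
      (FU U pm).coeff 34 = eta U pm)
    (Data : List (ℕ × List ℕ × Bool)) (hD : Detect Data)
    (hV : ∀ t ∈ Data, Valid t.1 t.2.1.toFinset t.2.2 ∧ |sg t.2.1.toFinset t.2.2 1| ≤ 2 ∧
      NiceSet t.1 t.2.1.toFinset t.2.2)
    (hF : ∀ (e : ℕ) (U : Finset ℕ) (pm : Bool), Valid e U pm →
      ∃ F1 F2 : (ℕ → ℝ) → ℝ[X], Family e U pm F1 F2)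
    (hN : ∃ F1 F2 : ℝ[X], F1.Monic ∧ F1.natDegree = 36 ∧ F2.Monic ∧ F2.natDegree = 34 ∧
      F1 * F2 = X ^ 70 - 1 ∧ nice1 F1 ∧ nice2 F2)
    (p : ℝ[X]) (hp : p.Monic) (hpd : p.natDegree = 69) :
    ∃ (F1 F2 : ℝ[X]) (K : ℝ), F1.Monic ∧ F1.natDegree = 36 ∧ F2.Monic ∧ F2.natDegree = 34 ∧
      X * p + C K = F1 * F2 ∧ nice1 F1 ∧ nice2 F2 := by
  by_cases hc : ∃ j ∈ Finset.Icc 1 69, p.coeff (69 - j) ≠ 0
  · obtain ⟨T, hT, hbox, j0, hj0, hTj0⟩ := exit_time (fun j => p.coeff (69 - j)) hc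
    set c : ℕ → ℝ := fun j => p.coeff (69 - j) with hcdef
    let γ : ℝ → ℕ → ℝ := fun τ j => if j = 0 then 0 else c j * τ ^ j
    have hγ : ∀ τ, ∀ j ∈ Finset.Icc 1 69, γ τ j = c j * τ ^ j := by
      intro τ j hj
      rw [Finset.mem_Icc] at hj
      show (if j = 0 then 0 else c j * τ ^ j) = _
      rw [if_neg (by omega)]
    have hγbox : ∀ τ ∈ Set.Icc 0 T, Box (γ τ) := by
      intro τ hτ j hj
      rw [hγ τ j hj]
      exact hbox τ hτ j hj
    have hγc : ∀ j, Continuous (fun τ => γ τ j) := by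
      intro j
      by_cases h : j = 0
      · have : (fun τ => γ τ j) = fun _ => 0 := by
          funext τ
          show (if j = 0 then 0 else c j * τ ^ j) = 0
          rw [if_pos h]
        rw [this]
        exact continuous_const
      · have : (fun τ => γ τ j) = fun τ => c j * τ ^ j := by
          funext τ
          show (if j = 0 then 0 else c j * τ ^ j) = _
          rw [if_neg h]
        rw [this]
        fun_prop
    have hγ0 : γ 0 = fun _ => 0 := by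
      funext j
      show (if j = 0 then 0 else c j * 0 ^ j) = 0
      split_ifs with h
      · rfl
      · rw [zero_pow h, mul_zero]
    have hT0 : (0 : ℝ) ∈ Set.Icc 0 T := ⟨le_rfl, hT.le⟩
    have hTT : T ∈ Set.Icc 0 T := ⟨hT.le, le_rfl⟩
    obtain ⟨t, ht, hsign⟩ := hD (γ T) (hγbox T hTT) j0 hj0 (by rw [hγ T j0 hj0]; exact hTj0)
    obtain ⟨hval, hsg, hnice⟩ := hV t ht
    obtain ⟨F1, F2, fam⟩ := hF _ _ _ hval
    have hcont := fam.cont γ T hγc hγbox 34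
    have hf0 : (F1 (γ 0)).coeff 34 = eta t.2.1.toFinset t.2.2 := by
      rw [hγ0, fam.zero1]
      exact FU_coeff34 _ _ _ hval
    have hfT := fam.e2 hsg (γ T) (hγbox T hTT)
    rw [abs_le] at hfT
    have hne : eta t.2.1.toFinset t.2.2 ≠ 0 := by
      rcases hsign with ⟨h, -⟩ | ⟨h, -⟩
      · exact ne_of_gt h
      · exact ne_of_lt h
    have hroot : ∃ τ ∈ Set.Icc 0 T, (F1 (γ τ)).coeff 34 = 0 := by
      rcases hsign with ⟨h1, h2⟩ | ⟨h1, h2⟩
      · have h3 : (0 : ℝ) ∈ Set.Icc ((F1 (γ T)).coeff 34) ((F1 (γ 0)).coeff 34) := by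
          rw [hf0]
          constructor
          · norm_num at h2 hfT ⊢
            linarith [hfT.2]
          · exact h1.le
        obtain ⟨τ, hτ, hτ0⟩ := intermediate_value_Icc' hT.le hcont h3
        exact ⟨τ, hτ, hτ0⟩
      · have h3 : (0 : ℝ) ∈ Set.Icc ((F1 (γ 0)).coeff 34) ((F1 (γ T)).coeff 34) := by
          rw [hf0]
          constructor
          · exact h1.le
          · norm_num at h2 hfT ⊢
            linarith [hfT.1]
        obtain ⟨τ, hτ, hτ0⟩ := intermediate_value_Icc hT.le hcont h3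
        exact ⟨τ, hτ, hτ0⟩
    obtain ⟨τ, hτ, hτ0⟩ := hroot
    have hτne : τ ≠ 0 := by
      rintro rfl
      exact hne (hf0.symm.trans hτ0)
    have hτpos : 0 < τ := lt_of_le_of_ne hτ.1 (Ne.symm hτne)
    have hb := hγbox τ hτ
    have hprod := fam.prod (γ τ) hb
    have h00 : (F1 (γ τ)).coeff 0 * (F2 (γ τ)).coeff 0 ≠ 0 := by
      rw [← mul_coeff_zero, hprod]
      exact P_coeff_zero_10303 _ _
    obtain ⟨hn1, hn2⟩ := hnice (F1 (γ τ)) (F2 (γ τ)) (fam.close1 _ hb) (fam.close2 _ hb)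
      (fam.top1 _ hb) (fam.top2 _ hb) hτ0 (left_ne_zero_of_mul h00) (right_ne_zero_of_mul h00)
    exact scale_step (F1 (γ τ)) (F2 (γ τ)) t.1 c τ hτpos (fam.monic1 _ hb) (fam.deg1 _ hb)
      (fam.monic2 _ hb) (fam.deg2 _ hb)
      (hprod.trans (P_congr_10303 _ _ _ (hγ τ))) hn1 hn2 p hp hpd (fun j => rfl)
  · push Not at hc
    obtain ⟨F1, F2, h1, h2, h3, h4, h5, h6, h7⟩ := hN
    refine ⟨F1, F2, -1, h1, h2, h3, h4, ?_, h6, h7⟩
    have hpX : p = X ^ 69 := by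
      ext i
      rw [coeff_X_pow]
      split_ifs with h
      · rw [h]
        have := hp.coeff_natDegree
        rwa [hpd] at this
      · by_cases hi : i < 69
        · have := hc (69 - i) (by rw [Finset.mem_Icc]; omega)
          rwa [show 69 - (69 - i) = i by omega] at this
        · exact coeff_eq_zero_of_natDegree_lt (by omega)
    rw [h5, hpX, C_neg, C_1]
    ring

end Pool.Agent.Helper993.TwoN.D1
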