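import Pool.Agent.Helper993.TwoN.A1a
import Pool.Agent.Helper993.TwoN.A1b
import Pool.Agent.Helper993.TwoN.A2
import Pool.Agent.Helper993.TwoN.B1
import Pool.Agent.Helper993.TwoN.B1b
import Pool.Agent.Helper993.TwoN.B2
import Pool.Agent.Helper993.TwoN.B3
import Pool.Agent.Helper993.TwoN.B4
import Pool.Agent.Helper993.TwoN.B5
import Pool.Agent.Helper993.TwoN.B6
import Pool.Agent.Helper993.TwoN.B7a
import Pool.Agent.Helper993.TwoN.B7b
import Pool.Agent.Helper993.TwoN.B7c
import Pool.Agent.Helper993.TwoN.B7d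
import Pool.Agent.Helper993.TwoN.B7e
import Pool.Agent.Helper993.TwoN.B7f
import Pool.Agent.Helper993.TwoN.B7
import Pool.Agent.Helper993.TwoN.C1
import Pool.Agent.Helper993.TwoN.C2a
import Pool.Agent.Helper993.TwoN.C2b
import Pool.Agent.Helper993.TwoN.C2c
import Pool.Agent.Helper993.TwoN.C3a
import Pool.Agent.Helper993.TwoN.C3b
import Pool.Agent.Helper993.TwoN.C3c
import Pool.Agent.Helper993.TwoN.C4
import Pool.Agent.Helper993.TwoN.C5
import Pool.Agent.Helper993.TwoN.D1a
import Pool.Agent.Helper993.TwoN.D1b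
import Pool.Agent.Helper993.TwoN.D1
import Pool.Agent.Helper993.TwoN.Num.T0
import Pool.Agent.Helper993.TwoN.Num.N0
import Pool.Agent.Helper993.TwoN.Num.N1
import Pool.Agent.Helper993.TwoN.Num.N2
import Pool.Agent.Helper993.TwoN.Num.N3
import Pool.Agent.Helper993.TwoN.Num.N4
import Pool.Agent.Helper993.TwoN.Num.R0
import Pool.Agent.Helper993.TwoN.Num.R1
import Pool.Agent.Helper993.TwoN.Num.L0
import Pool.Agent.Helper993.TwoN.Num.L1
import Pool.Agent.Helper993.TwoN.Num.L2
import Pool.Agent.Helper993.TwoN.Num.L3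

set_option autoImplicit false

namespace Pool.Agent.Helper993.TwoN

open Polynomial

/-! ### Collecting the numerical checks -/

theorem mem_chunk {α : Type} (c : ℕ) (hc : 0 < c) (l : List α) (n : ℕ) (hl : l.length ≤ c * n)
    (t : α) (ht : t ∈ l) : ∃ k < n, t ∈ (l.drop (c * k)).take c := by
  obtain ⟨i, hi, rfl⟩ := List.mem_iff_getElem.1 ht
  have hk : i / c < n := Nat.div_lt_of_lt_mul (lt_of_lt_of_le hi hl)
  refine ⟨i / c, hk, ?_⟩
  rw [List.mem_iff_getElem]
  have h1 : c * (i / c) + i % c = i := Nat.div_add_mod i c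
  have h2 : i % c < c := Nat.mod_lt _ hc
  refine ⟨i % c, ?_, ?_⟩
  · rw [List.length_take, List.length_drop]
    exact lt_min h2 (by omega)
  · rw [List.getElem_take, List.getElem_drop]
    congr 1

theorem eq_of_chunks {α : Type} (c : ℕ) (n : ℕ) : ∀ (l1 l2 : List α), l1.length ≤ c * n →
    l2.length ≤ c * n → (∀ k < n, (l1.drop (c * k)).take c = (l2.drop (c * k)).take c) →
    l1 = l2 := by
  induction n with
  | zero =>
    intro l1 l2 h1 h2 _
    rw [Nat.mul_zero, Nat.le_zero, List.length_eq_zero_iff] at h1 h2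
    rw [h1, h2]
  | succ n ih =>
    intro l1 l2 h1 h2 h
    have e0 := h 0 (Nat.succ_pos n)
    simp only [Nat.mul_zero, List.drop_zero] at e0
    have e1 : l1.drop c = l2.drop c := by
      apply ih
      · rw [List.length_drop]; rw [Nat.mul_succ] at h1; omega
      · rw [List.length_drop]; rw [Nat.mul_succ] at h2; omega
      · intro k hk
        rw [List.drop_drop, List.drop_drop]
        have := h (k + 1) (by omega)
        rw [Nat.mul_succ] at this
        rw [show c + c * k = c * k + c by omega]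
        exact this
    rw [← List.take_append_drop c l1, ← List.take_append_drop c l2, e0, e1]

theorem chk_all : ∀ t ∈ Data, chk t = true := by
  intro t ht
  obtain ⟨k, hk, hm⟩ := mem_chunk 22 (by norm_num) Data 10 (by decide +kernel) t ht
  have key : ((Data.drop (22 * k)).take 22).all chk = true := by
    interval_cases k
    · exact chk_0
    · exact chk_1
    · exact chk_2
    · exact chk_3
    · exact chk_4
    · exact chk_5
    · exact chk_6
    · exact chk_7
    · exact chk_8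
    · exact chk_9
  exact List.all_eq_true.1 key t hm

theorem rows_all : Data.map rowD = RW := by
  apply eq_of_chunks 22 10
  · rw [List.length_map]; decide +kernel
  · decide +kernel
  · intro k hk
    interval_cases k
    · exact row_0
    · exact row_1
    · exact row_2
    · exact row_3
    · exact row_4
    · exact row_5
    · exact row_6
    · exact row_7
    · exact row_8
    · exact row_9

theorem lpAll_get (a len : ℕ) (pos : Bool) (h : lpAll a len pos = true) (i : ℕ) (h1 : a ≤ i)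
    (h2 : i < a + len) : ∃ n, lpCheck RW (i + 1) pos n = true := by
  unfold lpAll at h
  rw [List.all_eq_true] at h
  exact ⟨_, h i (List.mem_range'_1.2 ⟨h1, h2⟩)⟩

theorem lp_all (i : ℕ) (hi : i < 69) (pos : Bool) : ∃ n, lpCheck RW (i + 1) pos n = true := by
  cases pos
  · rcases Nat.lt_or_ge i 9 with h | h
    · exact lpAll_get _ _ _ lpM_0 i (by omega) (by omega)
    rcases Nat.lt_or_ge i 18 with h | h
    · exact lpAll_get _ _ _ lpM_1 i (by omega) (by omega)
    rcases Nat.lt_or_ge i 27 with h | h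
    · exact lpAll_get _ _ _ lpM_2 i (by omega) (by omega)
    rcases Nat.lt_or_ge i 36 with h | h
    · exact lpAll_get _ _ _ lpM_3 i (by omega) (by omega)
    rcases Nat.lt_or_ge i 45 with h | h
    · exact lpAll_get _ _ _ lpM_4 i (by omega) (by omega)
    rcases Nat.lt_or_ge i 54 with h | h
    · exact lpAll_get _ _ _ lpM_5 i (by omega) (by omega)
    rcases Nat.lt_or_ge i 63 with h | h
    · exact lpAll_get _ _ _ lpM_6 i (by omega) (by omega)
    exact lpAll_get _ _ _ lpM_7 i (by omega) (by omega)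
  · rcases Nat.lt_or_ge i 9 with h | h
    · exact lpAll_get _ _ _ lpP_0 i (by omega) (by omega)
    rcases Nat.lt_or_ge i 18 with h | h
    · exact lpAll_get _ _ _ lpP_1 i (by omega) (by omega)
    rcases Nat.lt_or_ge i 27 with h | h
    · exact lpAll_get _ _ _ lpP_2 i (by omega) (by omega)
    rcases Nat.lt_or_ge i 36 with h | h
    · exact lpAll_get _ _ _ lpP_3 i (by omega) (by omega)
    rcases Nat.lt_or_ge i 45 with h | h
    · exact lpAll_get _ _ _ lpP_4 i (by omega) (by omega)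
    rcases Nat.lt_or_ge i 54 with h | h
    · exact lpAll_get _ _ _ lpP_5 i (by omega) (by omega)
    rcases Nat.lt_or_ge i 63 with h | h
    · exact lpAll_get _ _ _ lpP_6 i (by omega) (by omega)
    exact lpAll_get _ _ _ lpP_7 i (by omega) (by omega)

theorem tAll_get (a len : ℕ) (h : tAll a len = true) (i : ℕ) (h1 : a ≤ i) (h2 : i < a + len) :
    TLf i = packT ctf i 69 := by
  unfold tAll at h
  rw [List.all_eq_true] at h
  exact of_decide_eq_true (h i (List.mem_range'_1.2 ⟨h1, h2⟩))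

theorem tab_all (a : ℕ) (ha : a < 70) : TLf a = packT ctf a 69 := by
  rcases Nat.lt_or_ge a 10 with h | h
  · exact tAll_get _ _ tab_0 a (by omega) (by omega)
  rcases Nat.lt_or_ge a 20 with h | h
  · exact tAll_get _ _ tab_1 a (by omega) (by omega)
  rcases Nat.lt_or_ge a 30 with h | h
  · exact tAll_get _ _ tab_2 a (by omega) (by omega)
  rcases Nat.lt_or_ge a 40 with h | h
  · exact tAll_get _ _ tab_3 a (by omega) (by omega)
  rcases Nat.lt_or_ge a 50 with h | h
  · exact tAll_get _ _ tab_4 a (by omega) (by omega)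
  rcases Nat.lt_or_ge a 60 with h | h
  · exact tAll_get _ _ tab_5 a (by omega) (by omega)
  exact tAll_get _ _ tab_6 a (by omega) (by omega)

/-! ### Assembling the lemmas -/

theorem F_FU_map (e : ℕ) (U : Finset ℕ) (pm : Bool) (hU : U ⊆ UP e) (hp : pm = true → e = 0) :
    (FU U pm).map (algebraMap ℝ ℂ) = ∏ a ∈ full U pm, (X - C (w a)) :=
  B7c.FU_map B7a.w_conj B7a.w_norm e U pm hU hp

theorem F_power_sum (e : ℕ) (U : Finset ℕ) (pm : Bool) (hU : U ⊆ UP e) (hp : pm = true → e = 0)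
    (m : ℕ) : ∑ a ∈ full U pm, (w a) ^ m = ((sg U pm m : ℝ) : ℂ) :=
  B7c.power_sum B7a.w_conj B7a.w_norm e U pm hU hp m

theorem F_coeff34 (e : ℕ) (U : Finset ℕ) (pm : Bool) (hV : Valid e U pm) :
    (FU U pm).coeff 34 = eta U pm :=
  B7f.FU_coeff34 F_FU_map F_power_sum B7b.full_union B7d.coeff_top2 e U pm hV

theorem F_family (e : ℕ) (U : Finset ℕ) (pm : Bool) (hV : Valid e U pm) :
    ∃ F1 F2 : (ℕ → ℝ) → ℝ[X], Family e U pm F1 F2 :=
  B7.family_exists B1.root_existsUnique B6.root_lip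
    (B3.sum_est B2.parseval B1b.root_est B7a.w_pow)
    (B4.e2_est B7b.full_union F_power_sum B7a.w_pow)
    B5.coeff_pert B7a.w_pow B7a.w_conj B7a.w_norm B7b.full_union B7b.full_sub F_FU_map
    B7d.coeff_top1 B7d.coeff_top2 B7d.coeff_cont B7e.real_prod (B7f.P_prod B7a.w_dist)
    (B7f.z_conj B1.root_existsUnique B7a.w_pow) e U pm hV

theorem F_nice (e : ℕ) (U : List ℕ) (pm : Bool) (hv : validL e U pm = true)
    (hc : niceCheck ctf e U pm = true) :
    Valid e U.toFinset pm ∧ U.Nodup ∧ (∀ a ∈ U, a < 70) ∧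
      U.length + (if pm then 1 else 0) = 18 ∧ NiceSet e U.toFinset pm :=
  C3c.nice_sound (C3a.coefR_sound C2a.digsRev_eq C2a.digit_sound) C3b.hloop_sound C3b.sumAbs_eq
    ctf C1.ctf_spec C1.ctf_bound e U pm hv hc

theorem chk_split (t : ℕ × List ℕ × Bool) (h : chk t = true) :
    validL t.1 t.2.1 t.2.2 = true ∧ niceCheck ctf t.1 t.2.1 t.2.2 = true ∧
      (gI ctf t.2.1 t.2.2 1).natAbs ≤ 2 ^ 65 - 100 ∧ 2 ^ 74 < (etaI ctf t.2.1 t.2.2).natAbs := by
  unfold chk at h
  rw [Bool.and_eq_true, Bool.and_eq_true, Bool.and_eq_true] at h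
  obtain ⟨⟨⟨h1, h2⟩, h3⟩, h4⟩ := h
  refine ⟨h1, h2, ?_, ?_⟩
  · exact Nat.le_of_ble_eq_true h3
  · exact Nat.le_of_ble_eq_true h4

theorem sg_bound (U : List ℕ) (pm : Bool) (hn : U.Nodup) (hl : U.length ≤ 18)
    (h : (gI ctf U pm 1).natAbs ≤ 2 ^ 65 - 100) : |sg U.toFinset pm 1| ≤ 2 := by
  have h1 := C2b.gI_sound ctf C1.ctf_spec U hn hl pm 1
  have h2 : |((gI ctf U pm 1 : ℤ) : ℝ)| ≤ 2 ^ 65 - 100 := by
    have h3 : (((gI ctf U pm 1).natAbs : ℕ) : ℝ) ≤ ((2 ^ 65 - 100 : ℕ) : ℝ) := Nat.cast_le.2 h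
    have h4 : (((2 ^ 65 - 100 : ℕ)) : ℝ) = 2 ^ 65 - 100 := by norm_num
    rw [h4] at h3
    rw [← Int.cast_abs, Int.abs_eq_natAbs, Int.cast_natCast]
    exact h3
  rw [abs_le] at h1 h2 ⊢
  constructor <;> nlinarith [h1.1, h1.2, h2.1, h2.2]

theorem F_all (t : ℕ × List ℕ × Bool) (ht : t ∈ Data) :
    Valid t.1 t.2.1.toFinset t.2.2 ∧ t.2.1.Nodup ∧ (∀ a ∈ t.2.1, a < 70) ∧
      t.2.1.length + (if t.2.2 then 1 else 0) = 18 ∧ NiceSet t.1 t.2.1.toFinset t.2.2 ∧
      |sg t.2.1.toFinset t.2.2 1| ≤ 2 ∧ 2 ^ 74 < (etaI ctf t.2.1 t.2.2).natAbs := by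
  obtain ⟨h1, h2, h3, h4⟩ := chk_split t (chk_all t ht)
  obtain ⟨a1, a2, a3, a4, a5⟩ := F_nice _ _ _ h1 h2
  exact ⟨a1, a2, a3, a4, a5, sg_bound _ _ a2 (by omega) h3, h4⟩

theorem F_detect : Detect Data := by
  apply C4.detect_sound C2a.digit_sound C2a.absSum_eq ctf TLf Data
  · decide +kernel
  · intro t ht
    exact C2c.rowW_sound ctf TLf tab_all t.2.1 (F_all t ht).2.2.1 t.2.2
  · intro t ht j
    obtain ⟨a1, a2, a3, a4, a5, a6, a7⟩ := F_all t ht
    exact C2b.RI_sound ctf C1.ctf_spec t.2.1 a2 t.2.2 a4 a6 j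
  · intro t ht
    obtain ⟨a1, a2, a3, a4, a5, a6, a7⟩ := F_all t ht
    exact C2b.etaI_sound ctf C1.ctf_spec t.2.1 a2 t.2.2 a4 a6
  · intro t ht
    exact (F_all t ht).2.2.2.2.2.2
  · intro j0 hj0 pos
    have h1 := Finset.mem_Icc.1 hj0
    obtain ⟨n, hn⟩ := lp_all (j0 - 1) (by omega) pos
    refine ⟨n, ?_⟩
    have h2 : Data.map (fun t => rowS ctf TLf t.2.1 t.2.2) = RW := rows_all
    rw [h2]
    rw [show j0 - 1 + 1 = j0 by omega] at hn
    exact hn

/-- the exact zero of `e_2` -/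
def U0 : List ℕ := [2, 4, 8, 12, 16, 18, 22, 24, 32, 36, 38, 44, 48, 52, 58, 62, 64, 68]

theorem U0_valid : validL 0 U0 false = true := by decide +kernel

theorem U0_nice : niceCheck ctf 0 U0 false = true := by decide +kernel

theorem F_nil : ∃ F1 F2 : ℝ[X], F1.Monic ∧ F1.natDegree = 36 ∧ F2.Monic ∧ F2.natDegree = 34 ∧
    F1 * F2 = X ^ 70 - 1 ∧ nice1 F1 ∧ nice2 F2 := by
  obtain ⟨a1, a2, a3, a4, a5⟩ := F_nice 0 U0 false U0_valid U0_nice
  obtain ⟨b1, b2, b3, b4, b5⟩ := C5.prod_all 0 U0.toFinset false B7a.w_pow B7a.w_inj F_FU_map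
    B7b.full_union a1
  have h34 : (FU U0.toFinset false).coeff 34 = 0 := by
    rw [F_coeff34 0 U0.toFinset false a1]
    have h1 : U0.toFinset = ({2, 4, 8, 12, 16, 18, 22, 24, 32, 36, 38, 44, 48, 52, 58, 62, 64, 68} :
      Finset ℕ) := by decide +kernel
    rw [h1]
    exact C5.eta_zero
  have h0 : (FU U0.toFinset false).coeff 0 * (FU (comp 0 U0.toFinset) (cpm 0 false)).coeff 0 ≠ 0 := by
    rw [← mul_coeff_zero, b1]
    simp
  have hc := a5 (FU U0.toFinset false) (FU (comp 0 U0.toFinset) (cpm 0 false))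
    (fun i => by
      rw [sub_self, abs_zero]
      exact mul_nonneg (by norm_num) (Finset.sum_nonneg fun _ _ => abs_nonneg _))
    (fun i => by
      rw [sub_self, abs_zero]
      exact mul_nonneg (by norm_num) (Finset.sum_nonneg fun _ _ => abs_nonneg _))
    (by rw [sub_self, abs_zero]; norm_num) (by rw [sub_self, abs_zero]; norm_num) h34
    (left_ne_zero_of_mul h0) (right_ne_zero_of_mul h0)
  refine ⟨_, _, b2, b3, b4, b5, ?_, hc.1, hc.2⟩
  rw [b1]
  simp

/-- Every monic real polynomial of degree 69 is the characteristic polynomial of a matrix with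
pattern `S`. -/
theorem realise_all (p : ℝ[X]) (hp : p.Monic) (hpd : p.natDegree = 69) :
    ∃ A : Matrix (Fin 69) (Fin 69) ℝ, (∀ i j, A i j ≠ 0 ↔ (i, j) ∈ S) ∧ A.charpoly = p := by
  obtain ⟨F1, F2, K, h1, h2, h3, h4, h5, h6, h7⟩ := D1.main_factor D1a.scale_step D1b.exit_time
    F_coeff34 Data F_detect (fun t ht => ⟨(F_all t ht).1, (F_all t ht).2.2.2.2.2.1,
      (F_all t ht).2.2.2.2.1⟩) F_family F_nil p hp hpd
  exact A1b.realise A1a.hess_charpoly p F1 F2 hp hpd h1 h2 h3 h4 K h5 h6 h7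

end Pool.Agent.Helper993.TwoN
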